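import Mathlib

namespace Pool.Agent.W_MP_34e65c_co

/-- `G` is `q`-Ramsey for `H`: every colouring of the edges of `G` with `q` colours contains a
monochromatic copy of `H` (a not necessarily induced subgraph isomorphic to `H`). -/
def IsRamsey (q : ℕ) {W V : Type} (H : SimpleGraph W) (G : SimpleGraph V) : Prop :=
  ∀ c : G.edgeSet → Fin q, ∃ (f : W ↪ V) (i : Fin q),
    ∀ a b, H.Adj a b → ∃ h : s(f a, f b) ∈ G.edgeSet, c ⟨s(f a, f b), h⟩ = i

/-- `G` is minimal `q`-Ramsey for `H`: it is `q`-Ramsey for `H` and no proper subgraph is. -/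
def IsMinRamsey (q : ℕ) {W V : Type} (H : SimpleGraph W) (G : SimpleGraph V) : Prop :=
  IsRamsey q H G ∧ ∀ G' : G.Subgraph, G' ≠ ⊤ → ¬ IsRamsey q H G'.coe

open scoped Classical in
/-- `s_q(H)`: the smallest minimum degree of a (finite) minimal `q`-Ramsey graph for `H`. -/
noncomputable def sMin (q : ℕ) {W : Type} (H : SimpleGraph W) : ℕ :=
  sInf {d | ∃ (n : ℕ) (G : SimpleGraph (Fin n)), IsMinRamsey q H G ∧ G.minDegree = d}

open scoped Classical in
/-- `H` is `s_q`-abundant: for every `k` some (finite) minimal `q`-Ramsey graph for `H` has at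
least `k` vertices of degree exactly `s_q(H)`. -/
def IsAbundant (q : ℕ) {W : Type} (H : SimpleGraph W) : Prop :=
  ∀ k : ℕ, ∃ (n : ℕ) (G : SimpleGraph (Fin n)), IsMinRamsey q H G ∧
    k ≤ (Finset.univ.filter fun v => G.degree v = sMin q H).card

/-- a star is a complete bipartite graph `K_{1,n}`, `n ≥ 0` -/
def IsStar {W : Type} (T : SimpleGraph W) : Prop :=
  ∃ n : ℕ, Nonempty (T ≃g completeBipartiteGraph (Fin 1) (Fin n))

end Pool.Agent.W_MP_34e65c_co
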