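import Mathlib

namespace Pool.Agent.W_MP_34e65c_co

open Finset

section even
variable {V : Type} [Fintype V] [DecidableEq V]

/-- every nonempty set of edges with all degrees even has more than `B` elements -/
def EvenFree (G : SimpleGraph V) (B : ℕ) : Prop :=
  ∀ F : Finset (Sym2 V), (∀ e ∈ F, e ∈ G.edgeSet) → F.Nonempty →
    (∀ v, Even (F.filter fun e => v ∈ e).card) → B < F.card

lemma card_mem_of_not_isDiag {e : Sym2 V} (he : ¬ e.IsDiag) :
    (univ.filter fun v => v ∈ e).card = 2 := by
  rw [← Sym2.card_toFinset_of_not_isDiag e he]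
  congr 1
  ext v
  simp

lemma sum_deg {F : Finset (Sym2 V)} (hF : ∀ e ∈ F, ¬ e.IsDiag) :
    ∑ v : V, (F.filter fun e => v ∈ e).card = 2 * F.card := by
  have h1 : ∀ v : V, (F.filter fun e => v ∈ e).card = ∑ e ∈ F, if v ∈ e then 1 else 0 := by
    intro v
    rw [Finset.card_filter]
  simp_rw [h1]
  rw [Finset.sum_comm]
  have h2 : ∀ e ∈ F, ∑ v : V, (if v ∈ e then 1 else 0) = 2 := by
    intro e he
    rw [← Finset.card_filter]
    exact card_mem_of_not_isDiag (hF e he)
  rw [Finset.sum_congr rfl h2, Finset.sum_const, smul_eq_mul, mul_comm]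

lemma exists_even_subset {F : Finset (Sym2 V)} (hF : ∀ e ∈ F, ¬ e.IsDiag) {S : Finset V}
    (hS : ∀ e ∈ F, ∀ v ∈ e, v ∈ S) (hne : S.Nonempty) (hcard : S.card ≤ F.card) :
    ∃ F' ⊆ F, F'.Nonempty ∧ ∀ v, Even (F'.filter fun e => v ∈ e).card := by
  obtain ⟨v0, hv0⟩ := hne
  have hlt : ((S.erase v0).powerset).card < (F.powerset).card := by
    rw [Finset.card_powerset, Finset.card_powerset]
    apply Nat.pow_lt_pow_right (by norm_num)
    rw [Finset.card_erase_of_mem hv0]
    have := Finset.card_pos.2 ⟨v0, hv0⟩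
    omega
  obtain ⟨A, hA, B, hB, hAB, heq⟩ := Finset.exists_ne_map_eq_of_card_lt_of_maps_to
    (s := F.powerset) (t := (S.erase v0).powerset) hlt
    (f := fun A => (S.erase v0).filter fun v => Odd (A.filter fun e => v ∈ e).card)
    (fun A _ => Finset.mem_powerset.2 (Finset.filter_subset _ _))
  rw [Finset.mem_powerset] at hA hB
  have hsub : symmDiff A B ⊆ F := by
    intro e he
    rw [Finset.mem_symmDiff] at he
    rcases he with he | he
    · exact hA he.1
    · exact hB he.1
  have hpar : ∀ v, ((symmDiff A B).filter fun e => v ∈ e).card + 2 *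
      ((A ∩ B).filter fun e => v ∈ e).card =
      (A.filter fun e => v ∈ e).card + (B.filter fun e => v ∈ e).card := by
    intro v
    have e1 : (A.filter fun e => v ∈ e).card = ((A \ B).filter fun e => v ∈ e).card +
        ((A ∩ B).filter fun e => v ∈ e).card := by
      rw [← Finset.card_union_of_disjoint, ← Finset.filter_union, Finset.sdiff_union_inter]
      exact Finset.disjoint_filter_filter (Finset.disjoint_sdiff_inter A B)
    have e2 : (B.filter fun e => v ∈ e).card = ((B \ A).filter fun e => v ∈ e).card +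
        ((A ∩ B).filter fun e => v ∈ e).card := by
      rw [Finset.inter_comm A B]
      rw [← Finset.card_union_of_disjoint, ← Finset.filter_union, Finset.sdiff_union_inter]
      exact Finset.disjoint_filter_filter (Finset.disjoint_sdiff_inter B A)
    have e3 : ((symmDiff A B).filter fun e => v ∈ e).card =
        ((A \ B).filter fun e => v ∈ e).card + ((B \ A).filter fun e => v ∈ e).card := by
      rw [← Finset.card_union_of_disjoint, ← Finset.filter_union]
      · rfl
      · exact Finset.disjoint_filter_filter disjoint_sdiff_sdiff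
    omega
  have hev : ∀ v, v ≠ v0 → Even ((symmDiff A B).filter fun e => v ∈ e).card := by
    intro v hv
    by_cases hvS : v ∈ S
    · have hm : v ∈ S.erase v0 := Finset.mem_erase.2 ⟨hv, hvS⟩
      have h1 : (v ∈ (S.erase v0).filter fun v => Odd (A.filter fun e => v ∈ e).card) ↔
          (v ∈ (S.erase v0).filter fun v => Odd (B.filter fun e => v ∈ e).card) := by
        rw [heq]
      simp only [Finset.mem_filter, hm, true_and] at h1
      have h2 := hpar v
      have h3 : Even ((A.filter fun e => v ∈ e).card + (B.filter fun e => v ∈ e).card) := by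
        rw [Nat.even_add]
        rw [← not_iff_not, Nat.not_even_iff_odd, Nat.not_even_iff_odd]
        exact h1
      rw [← h2, Nat.even_add] at h3
      exact h3.2 (even_two_mul _)
    · have : ((symmDiff A B).filter fun e => v ∈ e) = ∅ := by
        apply Finset.filter_eq_empty_iff.2
        intro e he hve
        exact hvS (hS e (hsub he) v hve)
      rw [this]
      simp
  refine ⟨symmDiff A B, hsub, ?_, ?_⟩
  · rw [Finset.nonempty_iff_ne_empty]
    intro h
    apply hAB
    exact symmDiff_eq_bot.1 h
  · intro v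
    rcases eq_or_ne v v0 with rfl | hv
    · have hs := sum_deg (F := symmDiff A B) (fun e he => hF e (hsub he))
      rw [← Finset.add_sum_erase _ _ (Finset.mem_univ v)] at hs
      have h3 : Even (∑ x ∈ univ.erase v, ((symmDiff A B).filter fun e => x ∈ e).card) := by
        apply Finset.even_sum
        intro x hx
        exact hev x (Finset.ne_of_mem_erase hx)
      have h4 : Even (((symmDiff A B).filter fun e => v ∈ e).card +
          ∑ x ∈ univ.erase v, ((symmDiff A B).filter fun e => x ∈ e).card) := by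
        rw [hs]
        exact even_two_mul _
      rw [Nat.even_add] at h4
      exact h4.2 h3
    · exact hev v hv

/-- small vertex sets span few edges -/
def Sparse (G : SimpleGraph V) (B : ℕ) : Prop :=
  ∀ (S : Finset V) (F : Finset (Sym2 V)), S.Nonempty → S.card ≤ B →
    (∀ e ∈ F, e ∈ G.edgeSet) → (∀ e ∈ F, ∀ v ∈ e, v ∈ S) → F.card < S.card

lemma EvenFree.sparse {G : SimpleGraph V} {B : ℕ} (h : EvenFree G B) : Sparse G B := by
  intro S F hS hB hF hFS
  by_contra hcon
  push Not at hcon
  obtain ⟨F1, hF1, hc⟩ := Finset.exists_subset_card_eq hcon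
  obtain ⟨F2, hF2, hne, hev⟩ := exists_even_subset (F := F1)
    (fun e he => G.not_isDiag_of_mem_edgeSet (hF e (hF1 he)))
    (S := S) (fun e he => hFS e (hF1 he)) hS hc.ge
  have := h F2 (fun e he => hF e (hF1 (hF2 he))) hne hev
  have h3 := Finset.card_le_card hF2
  omega

omit [Fintype V] in
lemma EvenFree.anti {G : SimpleGraph V} {B B' : ℕ} (h : EvenFree G B) (hb : B' ≤ B) :
    EvenFree G B' := fun F h1 h2 h3 => lt_of_le_of_lt hb (h F h1 h2 h3)

omit [Fintype V] in
lemma evenFree_zero (G : SimpleGraph V) : EvenFree G 0 :=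
  fun _ _ h2 _ => Finset.card_pos.2 h2

/-- the mod 2 homology cover -/
def cover (G : SimpleGraph V) : SimpleGraph (V × (Sym2 V → ZMod 2)) where
  Adj p p' := G.Adj p.1 p'.1 ∧ p'.2 = p.2 + Pi.single s(p.1, p'.1) 1
  symm := ⟨by
    rintro p p' ⟨h1, h2⟩
    refine ⟨h1.symm, ?_⟩
    rw [h2, Sym2.eq_swap, add_assoc, ← Pi.single_add]
    have : (1 : ZMod 2) + 1 = 0 := by decide
    rw [this, Pi.single_zero, add_zero]⟩
  loopless := ⟨by
    rintro p ⟨h1, -⟩
    exact h1.ne rfl⟩

lemma evenFree_cover {G : SimpleGraph V} {B : ℕ} (h : EvenFree G B) :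
    EvenFree (cover G) (2 * B + 1) := by
  intro F hF hne hev
  by_contra hcon
  push Not at hcon
  have hFd : ∀ f ∈ F, ¬ f.IsDiag := fun f hf => (cover G).not_isDiag_of_mem_edgeSet (hF f hf)
  set π : Sym2 (V × (Sym2 V → ZMod 2)) → Sym2 V := Sym2.map Prod.fst with hπ
  set F' := F.image π with hF'
  have hF'G : ∀ e ∈ F', e ∈ G.edgeSet := by
    intro e he
    rw [hF', Finset.mem_image] at he
    obtain ⟨f, hf, rfl⟩ := he
    have := hF f hf
    induction f with
    | _ p p' =>
      rw [SimpleGraph.mem_edgeSet] at this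
      rw [hπ, Sym2.map_mk, SimpleGraph.mem_edgeSet]
      exact this.1
  have hfib : ∀ e ∈ F', 2 ≤ (F.filter fun f => π f = e).card := by
    intro e he
    have hpos : 0 < (F.filter fun f => π f = e).card := by
      rw [hF', Finset.mem_image] at he
      obtain ⟨f, hf, hfe⟩ := he
      exact Finset.card_pos.2 ⟨f, Finset.mem_filter.2 ⟨hf, hfe⟩⟩
    have hsum : ∑ f ∈ F, ∑ p ∈ univ.filter (fun p => p ∈ f), p.2 e =
        ∑ f ∈ F, (if π f = e then (1 : ZMod 2) else 0) := by
      apply Finset.sum_congr rfl
      intro f hf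
      have hf1 := hF f hf
      have hf2 := hFd f hf
      induction f with
      | _ p p' =>
        rw [SimpleGraph.mem_edgeSet] at hf1
        rw [Sym2.mk_isDiag_iff] at hf2
        have : (univ.filter fun x => x ∈ s(p, p')) = {p, p'} := by
          ext x
          simp
        rw [this, Finset.sum_pair hf2, hf1.2, Pi.add_apply, ← add_assoc]
        have h2 : ∀ z : ZMod 2, z + z = 0 := by decide
        rw [h2, zero_add, Pi.single_apply, hπ, Sym2.map_mk]
        by_cases hc : e = s(p.1, p'.1)
        · rw [if_pos hc, if_pos hc.symm]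
        · rw [if_neg hc, if_neg (fun h => hc h.symm)]
    have hzero : ∑ f ∈ F, ∑ p ∈ univ.filter (fun p => p ∈ f), p.2 e = 0 := by
      simp_rw [Finset.sum_filter]
      rw [Finset.sum_comm]
      apply Finset.sum_eq_zero
      intro p _
      rw [← Finset.sum_filter, Finset.sum_const, nsmul_eq_mul]
      have : (((F.filter fun f => p ∈ f).card : ℕ) : ZMod 2) = 0 := by
        rw [ZMod.natCast_eq_zero_iff_even]
        exact hev p
      rw [this, zero_mul]
    rw [hzero, Finset.sum_boole] at hsum
    have : Even (F.filter fun f => π f = e).card := by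
      rw [← ZMod.natCast_eq_zero_iff_even]
      exact hsum.symm
    obtain ⟨k, hk⟩ := this
    omega
  have hcard : 2 * F'.card ≤ F.card := by
    have h1 := Finset.card_eq_sum_card_image π F
    rw [h1, mul_comm]
    have := Finset.card_nsmul_le_sum F' (fun e => (F.filter fun f => π f = e).card) 2 hfib
    simpa using this
  set S := univ.filter (fun v : V => ∃ e ∈ F', v ∈ e) with hS
  have hdeg : ∀ v ∈ S, 2 ≤ (F'.filter fun e => v ∈ e).card := by
    intro v hv
    rw [hS, Finset.mem_filter] at hv
    obtain ⟨-, e, he, hve⟩ := hv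
    rw [hF', Finset.mem_image] at he
    obtain ⟨f, hf, rfl⟩ := he
    rw [hπ, Sym2.mem_map] at hve
    obtain ⟨p, hpf, rfl⟩ := hve
    have h1 : 2 ≤ (F.filter fun f => p ∈ f).card := by
      have hpos : 0 < (F.filter fun f => p ∈ f).card :=
        Finset.card_pos.2 ⟨f, Finset.mem_filter.2 ⟨hf, hpf⟩⟩
      obtain ⟨k, hk⟩ := hev p
      omega
    have h2 : ((F.filter fun f => p ∈ f).image π).card = (F.filter fun f => p ∈ f).card := by
      apply Finset.card_image_of_injOn
      intro f1 hf1 f2 hf2 h12
      rw [Finset.mem_coe, Finset.mem_filter] at hf1 hf2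
      obtain ⟨p1, rfl⟩ := Sym2.mem_iff_exists.1 hf1.2
      obtain ⟨p2, rfl⟩ := Sym2.mem_iff_exists.1 hf2.2
      have a1 := hF _ hf1.1
      have a2 := hF _ hf2.1
      rw [SimpleGraph.mem_edgeSet] at a1 a2
      rw [hπ, Sym2.map_mk, Sym2.map_mk, Sym2.congr_right] at h12
      have : p1 = p2 := by
        apply Prod.ext h12
        rw [a1.2, a2.2, h12]
      rw [this]
    rw [← h2] at h1
    refine h1.trans (Finset.card_le_card ?_)
    intro e he
    rw [Finset.mem_image] at he
    obtain ⟨f', hf', rfl⟩ := he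
    rw [Finset.mem_filter] at hf'
    rw [Finset.mem_filter]
    refine ⟨Finset.mem_image_of_mem _ hf'.1, ?_⟩
    rw [hπ]
    exact Sym2.mem_map.2 ⟨p, hf'.2, rfl⟩
  have hF'd : ∀ e ∈ F', ¬ e.IsDiag := fun e he => G.not_isDiag_of_mem_edgeSet (hF'G e he)
  have hSF : S.card ≤ F'.card := by
    have h1 := sum_deg hF'd
    have h2 : 2 * S.card ≤ ∑ v ∈ S, (F'.filter fun e => v ∈ e).card := by
      have := Finset.card_nsmul_le_sum S (fun v => (F'.filter fun e => v ∈ e).card) 2 hdeg
      rw [mul_comm]
      simpa using this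
    have h3 : ∑ v ∈ S, (F'.filter fun e => v ∈ e).card ≤
        ∑ v : V, (F'.filter fun e => v ∈ e).card :=
      Finset.sum_le_sum_of_subset (Finset.subset_univ _)
    omega
  have hF'S : ∀ e ∈ F', ∀ v ∈ e, v ∈ S := by
    intro e he v hv
    rw [hS, Finset.mem_filter]
    exact ⟨Finset.mem_univ _, e, he, hv⟩
  have hF'ne : F'.Nonempty := hne.image _
  have hSne : S.Nonempty := by
    obtain ⟨e, he⟩ := hF'ne
    induction e with
    | _ a b => exact ⟨a, hF'S _ he a (Sym2.mem_mk_left a b)⟩
  obtain ⟨F2, hF2, hne2, hev2⟩ := exists_even_subset hF'd hF'S hSne hSF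
  have h5 := h F2 (fun e he => hF'G e (hF2 he)) hne2 hev2
  have h6 := Finset.card_le_card hF2
  omega

end even

end Pool.Agent.W_MP_34e65c_co
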