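import Mathlib
import Pool.Agent.W_MP_34e65c_co.Cover

namespace Pool.Agent.W_MP_34e65c_co

open Finset

open scoped Classical in
/-- graded graphs: levels `0..n`, every vertex on level `j ≥ 1` has exactly `s j` neighbours one
level up (i.e. on level `j - 1`) and every vertex on level `j < n` has exactly `M` neighbours
on level `j + 1`; no small even edge sets -/
structure IsHost {V : Type} [Fintype V] [DecidableEq V] (G : SimpleGraph V) (lev : V → ℕ)
    (n : ℕ) (s : ℕ → ℕ) (M B : ℕ) : Prop where
  lev_le : ∀ v, lev v ≤ n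
  adj_lev : ∀ u v, G.Adj u v → lev u = lev v + 1 ∨ lev v = lev u + 1
  up_card : ∀ v, 1 ≤ lev v →
    (univ.filter fun u => G.Adj v u ∧ lev u + 1 = lev v).card = s (lev v)
  down_card : ∀ v, lev v < n →
    (univ.filter fun u => G.Adj v u ∧ lev u = lev v + 1).card = M
  even_free : EvenFree G B
  top : ∃ v, lev v = 0

lemma IsHost.cover {V : Type} [Fintype V] [DecidableEq V] {G : SimpleGraph V} {lev : V → ℕ}
    {n : ℕ} {s : ℕ → ℕ} {M B : ℕ} (h : IsHost G lev n s M B) :
    IsHost (cover G) (fun p => lev p.1) n s M (2 * B + 1) := by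
  classical
  have key : ∀ (p : V × (Sym2 V → ZMod 2)) (Q : V → Prop),
      (univ.filter fun u : V × (Sym2 V → ZMod 2) =>
        (Pool.Agent.W_MP_34e65c_co.cover G).Adj p u ∧ Q u.1).card =
      (univ.filter fun u : V => G.Adj p.1 u ∧ Q u).card := by
    intro p Q
    symm
    apply Finset.card_bij (fun u _ => (u, p.2 + Pi.single s(p.1, u) 1))
    · intro u hu
      rw [Finset.mem_filter] at hu ⊢
      exact ⟨Finset.mem_univ _, ⟨hu.2.1, rfl⟩, hu.2.2⟩
    · intro u _ u' _ h
      exact congrArg Prod.fst h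
    · intro u hu
      rw [Finset.mem_filter] at hu
      refine ⟨u.1, ?_, ?_⟩
      · rw [Finset.mem_filter]
        exact ⟨Finset.mem_univ _, hu.2.1.1, hu.2.2⟩
      · apply Prod.ext
        · rfl
        · exact hu.2.1.2.symm
  refine ⟨fun v => h.lev_le v.1, fun u v huv => h.adj_lev _ _ huv.1, fun v hv => ?_,
    fun v hv => ?_, evenFree_cover h.even_free, ?_⟩
  · rw [← h.up_card v.1 hv]
    convert key v (fun u => lev u + 1 = lev v.1)
  · rw [← h.down_card v.1 hv]
    convert key v (fun u => lev u = lev v.1 + 1)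
  · obtain ⟨v, hv⟩ := h.top
    exact ⟨(v, 0), hv⟩

/-- the vertex type of the base graph -/
abbrev BaseV (n : ℕ) (s : ℕ → ℕ) (M : ℕ) : Type :=
  Σ j : Fin (n + 1), ((i : Fin n) → Fin (if i.val < j.val then M else s (i.val + 1)))

/-- the base graph -/
def baseG (n : ℕ) (s : ℕ → ℕ) (M : ℕ) : SimpleGraph (BaseV n s M) where
  Adj p p' := (p.1.val = p'.1.val + 1 ∧ ∀ i : Fin n, i.val ≠ p'.1.val → (p.2 i).val = (p'.2 i).val)
    ∨ (p'.1.val = p.1.val + 1 ∧ ∀ i : Fin n, i.val ≠ p.1.val → (p'.2 i).val = (p.2 i).val)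
  symm := ⟨by
    rintro p p' (h | h)
    · exact Or.inr h
    · exact Or.inl h⟩
  loopless := ⟨by
    rintro p (h | h) <;> omega⟩

lemma baseV_ext {n : ℕ} {s : ℕ → ℕ} {M : ℕ} {p p' : BaseV n s M} (h1 : p.1 = p'.1)
    (h2 : ∀ i, (p.2 i).val = (p'.2 i).val) : p = p' := by
  obtain ⟨j, x⟩ := p
  obtain ⟨j', x'⟩ := p'
  dsimp only at h1
  subst h1
  congr 1
  ext i
  exact h2 i

lemma baseV_val_congr {n : ℕ} {s : ℕ → ℕ} {M : ℕ} {p p' : BaseV n s M} (h : p = p')
    (i : Fin n) : (p.2 i).val = (p'.2 i).val := by rw [h]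

lemma lt_ite_congr {y a b : ℕ} {P Q : Prop} [Decidable P] [Decidable Q]
    (h : y < if P then a else b) (hPQ : P ↔ Q) : y < if Q then a else b := by
  by_cases hp : P
  · rw [if_pos hp] at h
    rw [if_pos (hPQ.1 hp)]
    exact h
  · rw [if_neg hp] at h
    rw [if_neg (fun hq => hp (hPQ.2 hq))]
    exact h

lemma isHost_base (n : ℕ) (s : ℕ → ℕ) (M : ℕ) (hs : ∀ j, 1 ≤ j → j ≤ n → 1 ≤ s j) :
    IsHost (baseG n s M) (fun p => p.1.val) n s M 0 := by
  classical
  refine ⟨fun v => by have := v.1.isLt; omega, ?_, ?_, ?_, evenFree_zero _, ?_⟩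
  · rintro u v (h | h)
    · left; exact h.1
    · right; exact h.1
  · intro v hv
    have hvlt := v.1.isLt
    have hjn : v.1.val - 1 < n := by omega
    conv_rhs => rw [← Finset.card_range (s v.1.val)]
    symm
    apply Finset.card_bij (fun k hk => (⟨⟨v.1.val - 1, by omega⟩, fun i =>
      if hi : i.val = v.1.val - 1 then ⟨k, by
        rw [Finset.mem_range] at hk
        rw [if_neg (by dsimp only; omega)]
        have : i.val + 1 = v.1.val := by omega
        rw [this]; exact hk⟩
      else ⟨(v.2 i).val, lt_ite_congr (v.2 i).isLt (by dsimp only; omega)⟩⟩ : BaseV n s M))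
    · intro k hk
      rw [Finset.mem_filter]
      refine ⟨Finset.mem_univ _, Or.inl ⟨?_, ?_⟩, ?_⟩
      · dsimp only; omega
      · intro i hi
        dsimp only at hi ⊢
        rw [dif_neg hi]
      · dsimp only; omega
    · intro k hk k' hk' h
      have := baseV_val_congr h ⟨v.1.val - 1, hjn⟩
      simpa using this
    · intro u hu
      rw [Finset.mem_filter] at hu
      obtain ⟨-, hadj, hlev⟩ := hu
      have hu1 : u.1.val = v.1.val - 1 := by omega
      have huj : (u.2 ⟨v.1.val - 1, hjn⟩).val < s v.1.val := by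
        have h5 := lt_ite_congr (Q := False) (u.2 ⟨v.1.val - 1, hjn⟩).isLt
          ⟨fun h => by dsimp only at h; omega, fun h => h.elim⟩
        rw [if_neg not_false] at h5
        dsimp only at h5
        generalize (u.2 ⟨v.1.val - 1, hjn⟩).val = y at h5 ⊢
        have e : v.1.val - 1 + 1 = v.1.val := by omega
        rw [e] at h5
        exact h5
      refine ⟨(u.2 ⟨v.1.val - 1, hjn⟩).val, Finset.mem_range.2 huj, ?_⟩
      apply baseV_ext
      · apply Fin.ext
        dsimp only
        exact hu1.symm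
      · intro i
        dsimp only
        by_cases hi : i.val = v.1.val - 1
        · rw [dif_pos hi]
          have : i = ⟨v.1.val - 1, hjn⟩ := Fin.ext hi
          subst this
          rfl
        · rw [dif_neg hi]
          rcases hadj with h | h
          · exact h.2 i (by omega)
          · omega
  · intro v hv
    conv_rhs => rw [← Finset.card_range M]
    symm
    apply Finset.card_bij (fun k hk => (⟨⟨v.1.val + 1, by omega⟩, fun i =>
      if hi : i.val = v.1.val then ⟨k, by
        rw [Finset.mem_range] at hk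
        rw [if_pos (by dsimp only; omega)]
        exact hk⟩
      else ⟨(v.2 i).val, lt_ite_congr (v.2 i).isLt (by dsimp only; omega)⟩⟩ : BaseV n s M))
    · intro k hk
      rw [Finset.mem_filter]
      refine ⟨Finset.mem_univ _, Or.inr ⟨?_, ?_⟩, ?_⟩
      · dsimp only
      · intro i hi
        dsimp only at hi ⊢
        rw [dif_neg hi]
      · dsimp only
    · intro k hk k' hk' h
      have := baseV_val_congr h ⟨v.1.val, hv⟩
      simpa using this
    · intro u hu
      rw [Finset.mem_filter] at hu
      obtain ⟨-, hadj, hlev⟩ := hu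
      have huj : (u.2 ⟨v.1.val, hv⟩).val < M := by
        have h5 := lt_ite_congr (Q := True) (u.2 ⟨v.1.val, hv⟩).isLt
          ⟨fun _ => trivial, fun _ => by dsimp only; omega⟩
        rw [if_pos trivial] at h5
        exact h5
      refine ⟨(u.2 ⟨v.1.val, hv⟩).val, Finset.mem_range.2 huj, ?_⟩
      apply baseV_ext
      · apply Fin.ext
        dsimp only
        exact hlev.symm
      · intro i
        dsimp only
        by_cases hi : i.val = v.1.val
        · rw [dif_pos hi]
          have : i = ⟨v.1.val, hv⟩ := Fin.ext hi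
          subst this
          rfl
        · rw [dif_neg hi]
          rcases hadj with h | h
          · omega
          · exact (h.2 i (by omega)).symm
  · refine ⟨⟨⟨0, by omega⟩, fun i => ⟨0, ?_⟩⟩, rfl⟩
    rw [if_neg (by dsimp only; omega)]
    exact hs _ (by omega) (by have := i.isLt; omega)

lemma exists_host (n : ℕ) (s : ℕ → ℕ) (M : ℕ) (hs : ∀ j, 1 ≤ j → j ≤ n → 1 ≤ s j) (B : ℕ) :
    ∃ (V : Type) (_ : Fintype V) (_ : DecidableEq V) (G : SimpleGraph V) (lev : V → ℕ),
      IsHost G lev n s M B := by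
  induction B with
  | zero => exact ⟨BaseV n s M, inferInstance, inferInstance, _, _, isHost_base n s M hs⟩
  | succ B ih =>
    obtain ⟨V, i1, i2, G, lev, h⟩ := ih
    have h2 := h.cover
    refine ⟨V × (Sym2 V → ZMod 2), inferInstance, inferInstance, cover G, _,
      { h2 with even_free := h2.even_free.anti (by omega) }⟩

end Pool.Agent.W_MP_34e65c_co
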