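import Mathlib
import Pool.Agent.W_MP_34e65c_co.Cover

namespace Pool.Agent.W_MP_34e65c_co

open Finset

section
variable {V : Type} [Fintype V] [DecidableEq V]

lemma exists_orient {G : SimpleGraph V} {B : ℕ} (hsp : Sparse G B) (P : Finset V)
    (hP : P.card ≤ B) : ∃ p : V → V, ∀ u ∈ P, ∀ v ∈ P, G.Adj u v → p u = v ∨ p v = u := by
  classical
  induction hn : P.card using Nat.strong_induction_on generalizing P with
  | _ n ih =>
  subst hn
  rcases P.eq_empty_or_nonempty with rfl | hne
  · exact ⟨id, by simp⟩
  · -- a vertex of small degree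
    have hex : ∃ v ∈ P, (P.filter fun u => G.Adj v u).card ≤ 1 := by
      by_contra hcon
      push Not at hcon
      set E : Finset (Sym2 V) := univ.filter (fun e => e ∈ G.edgeSet ∧ ∀ v ∈ e, v ∈ P) with hE
      have hlt := hsp P E hne hP (by intro e he; rw [hE, Finset.mem_filter] at he; exact he.2.1)
        (by intro e he; rw [hE, Finset.mem_filter] at he; exact he.2.2)
      have hdiag : ∀ e ∈ E, ¬ e.IsDiag := by
        intro e he
        rw [hE, Finset.mem_filter] at he
        exact G.not_isDiag_of_mem_edgeSet he.2.1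
      have h1 := sum_deg hdiag
      have h2 : ∑ v ∈ P, 2 ≤ ∑ v ∈ P, (E.filter fun e => v ∈ e).card := by
        apply Finset.sum_le_sum
        intro v hv
        have h4 : 2 ≤ (P.filter fun u => G.Adj v u).card := hcon v hv
        refine h4.trans ?_
        have h3 : ((P.filter fun u => G.Adj v u).image (fun u => s(v, u))).card =
            (P.filter fun u => G.Adj v u).card := by
          apply Finset.card_image_of_injective
          intro u u' huu
          exact Sym2.congr_right.1 huu
        rw [← h3]
        apply Finset.card_le_card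
        intro e he
        rw [Finset.mem_image] at he
        obtain ⟨u, hu, rfl⟩ := he
        rw [Finset.mem_filter] at hu
        rw [Finset.mem_filter, hE, Finset.mem_filter]
        refine ⟨⟨Finset.mem_univ _, hu.2, ?_⟩, Sym2.mem_mk_left v u⟩
        intro x hx
        rw [Sym2.mem_iff] at hx
        rcases hx with rfl | rfl
        · exact hv
        · exact hu.1
      have h3 : ∑ v ∈ P, (E.filter fun e => v ∈ e).card ≤ ∑ v : V, (E.filter fun e => v ∈ e).card :=
        Finset.sum_le_sum_of_subset (Finset.subset_univ _)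
      rw [Finset.sum_const, smul_eq_mul] at h2
      omega
    obtain ⟨v, hv, hdeg⟩ := hex
    obtain ⟨p, hp⟩ := ih (P.erase v).card (by
      rw [Finset.card_erase_of_mem hv]
      have := Finset.card_pos.2 hne
      omega) (P.erase v) ((Finset.card_le_card (Finset.erase_subset _ _)).trans hP) rfl
    by_cases hnb : ∃ w ∈ P, G.Adj v w
    · obtain ⟨w, hw, hvw⟩ := hnb
      have huniq : ∀ u ∈ P, G.Adj v u → u = w := by
        intro u hu huv
        rw [Finset.card_le_one] at hdeg
        exact hdeg u (Finset.mem_filter.2 ⟨hu, huv⟩) w (Finset.mem_filter.2 ⟨hw, hvw⟩)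
      refine ⟨Function.update p v w, ?_⟩
      intro a ha b hb hab
      rcases eq_or_ne a v with rfl | hav
      · left
        rw [Function.update_self]
        exact (huniq b hb hab).symm
      · rcases eq_or_ne b v with rfl | hbv
        · right
          rw [Function.update_self]
          exact (huniq a ha hab.symm).symm
        · rw [Function.update_of_ne hav, Function.update_of_ne hbv]
          exact hp a (Finset.mem_erase.2 ⟨hav, ha⟩) b (Finset.mem_erase.2 ⟨hbv, hb⟩) hab
    · refine ⟨p, ?_⟩
      intro a ha b hb hab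
      rcases eq_or_ne a v with rfl | hav
      · exact absurd ⟨b, hb, hab⟩ hnb
      · rcases eq_or_ne b v with rfl | hbv
        · exact absurd ⟨a, ha, hab.symm⟩ hnb
        · exact hp a (Finset.mem_erase.2 ⟨hav, ha⟩) b (Finset.mem_erase.2 ⟨hbv, hb⟩) hab

omit [Fintype V] in
lemma exists_classes (U : Finset V) (k r : ℕ) (hk : 1 ≤ k) (hU : U.card ≤ k * r) :
    ∃ f : V → Fin k, ∀ c, (U.filter fun u => f u = c).card ≤ r := by
  classical
  rcases Nat.eq_zero_or_pos r with rfl | hr
  · refine ⟨fun _ => ⟨0, by omega⟩, fun c => ?_⟩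
    have h1 : U.card = 0 := by omega
    exact (Finset.card_filter_le U _).trans (by omega)
  · set e := U.equivFin with he
    refine ⟨fun u => if h : u ∈ U then ⟨(e ⟨u, h⟩).val / r, ?_⟩ else ⟨0, by omega⟩, fun c => ?_⟩
    · have := (e ⟨u, h⟩).isLt
      apply Nat.div_lt_of_lt_mul
      rw [mul_comm]
      omega
    · have h1 : (Finset.Ico (c.val * r) ((c.val + 1) * r)).card = r := by
        rw [Nat.card_Ico, add_mul, one_mul, Nat.add_sub_cancel_left]
      refine le_of_le_of_eq ?_ h1
      apply Finset.card_le_card_of_injOn (fun u => if h : u ∈ U then (e ⟨u, h⟩).val else 0)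
      · intro u hu
        rw [Finset.mem_coe, Finset.mem_filter] at hu
        obtain ⟨hu1, hu2⟩ := hu
        simp only [dif_pos hu1] at hu2
        rw [Finset.mem_coe, Finset.mem_Ico]
        simp only [dif_pos hu1]
        have hu3 : (e ⟨u, hu1⟩).val / r = c.val := by rw [← hu2]
        rw [← hu3]
        constructor
        · exact Nat.div_mul_le_self _ _
        · rw [add_mul, one_mul, mul_comm]
          exact Nat.lt_mul_div_succ _ hr |>.trans_eq (by ring)
      · intro u hu u' hu' huu
        rw [Finset.mem_coe, Finset.mem_filter] at hu hu'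
        simp only [dif_pos hu.1, dif_pos hu'.1] at huu
        have := e.injective (Fin.ext huu)
        exact congrArg Subtype.val this

omit [Fintype V] in
lemma exists_palette (U : Finset V) (q r : ℕ) (hq : 2 ≤ q) (hU : U.card ≤ q * r) (x : V)
    (γ : Fin q) : ∃ f : V → Fin q, f x ≠ γ ∧ ∀ c, (U.filter fun u => f u = c).card ≤ r := by
  classical
  obtain ⟨f, hf⟩ := exists_classes U q r (by omega) hU
  by_cases hx : f x = γ
  · obtain ⟨c', hc'⟩ : ∃ c' : Fin q, c' ≠ γ := by
      by_cases h0 : γ = ⟨0, by omega⟩
      · exact ⟨⟨1, by omega⟩, by rw [h0]; intro h; simpa using congrArg Fin.val h⟩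
      · exact ⟨⟨0, by omega⟩, fun h => h0 h.symm⟩
    refine ⟨fun u => Equiv.swap γ c' (f u), ?_, fun c => ?_⟩
    · simp only [hx, Equiv.swap_apply_left]
      exact hc'
    · refine le_trans (le_of_eq ?_) (hf (Equiv.swap γ c' c))
      congr 1
      ext u
      rw [Finset.mem_filter, Finset.mem_filter]
      constructor
      · rintro ⟨h1, h2⟩
        exact ⟨h1, by rw [← h2, Equiv.swap_apply_self]⟩
      · rintro ⟨h1, h2⟩
        exact ⟨h1, by simp only [h2, Equiv.swap_apply_self]⟩
  · exact ⟨f, hx, hf⟩

omit [Fintype V] in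
lemma exists_palette' (U : Finset V) (q r : ℕ) (hq : 2 ≤ q) (hU : U.card ≤ (q - 1) * r)
    (δ : Fin q) : ∃ f : V → Fin q, (∀ u, f u ≠ δ) ∧ ∀ c, (U.filter fun u => f u = c).card ≤ r := by
  classical
  obtain ⟨k, rfl⟩ : ∃ k, q = k + 1 := ⟨q - 1, by omega⟩
  obtain ⟨f, hf⟩ := exists_classes U k r (by omega) (by simpa using hU)
  refine ⟨fun u => δ.succAbove (f u), fun u => Fin.succAbove_ne δ _, fun c => ?_⟩
  by_cases hc : c = δ
  · have : (U.filter fun u => δ.succAbove (f u) = c) = ∅ := by
      apply Finset.filter_eq_empty_iff.2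
      intro u _ h
      exact Fin.succAbove_ne δ (f u) (h.trans hc)
    rw [this]
    simp
  · obtain ⟨c', hc'⟩ := Fin.exists_succAbove_eq hc
    refine le_trans (le_of_eq ?_) (hf c')
    congr 1
    ext u
    rw [Finset.mem_filter, Finset.mem_filter, ← hc']
    simp

end

end Pool.Agent.W_MP_34e65c_co
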