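import Mathlib

namespace Pool.Agent.W_MP_34e65c_co

open Finset

open scoped Classical in
/-- `T` can be mapped into the levels `0..n` so that adjacent vertices lie on consecutive levels
and a vertex on level `j` has at most `r j` neighbours on level `j - 1`. -/
def LevelEmb {W : Type} [Fintype W] (T : SimpleGraph W) (r : ℕ → ℕ) (n : ℕ) : Prop :=
  ∃ lam : W → ℕ, (∀ a, lam a ≤ n) ∧
    (∀ a b, T.Adj a b → lam a = lam b + 1 ∨ lam b = lam a + 1) ∧
    ∀ a, (univ.filter fun b => T.Adj a b ∧ lam b + 1 = lam a).card ≤ r (lam a)

section
variable {W : Type} [Fintype W] {T : SimpleGraph W}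

lemma LevelEmb.mono {r r' : ℕ → ℕ} {m : ℕ} (h : ∀ j, 1 ≤ j → j ≤ m → r j ≤ r' j)
    (hl : LevelEmb T r m) : LevelEmb T r' m := by
  classical
  obtain ⟨lam, h1, h2, h3⟩ := hl
  refine ⟨lam, h1, h2, fun a => ?_⟩
  by_cases h0 : lam a = 0
  · have : (univ.filter fun b => T.Adj a b ∧ lam b + 1 = lam a) = ∅ := by
      apply Finset.filter_eq_empty_iff.2
      intro b _ hb
      omega
    have := congrArg Finset.card this
    simp only [Finset.card_empty] at this
    convert Nat.zero_le _
  · exact (h3 a).trans (h _ (by omega) (h1 a))

omit [Fintype W] in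
lemma parent_unique (hT : T.IsTree) {u v w1 w2 : W} (h1 : T.Adj v w1) (h2 : T.Adj v w2)
    (d1 : T.dist u w1 + 1 = T.dist u v) (d2 : T.dist u w2 + 1 = T.dist u v) : w1 = w2 := by
  classical
  obtain ⟨p1, hp1, hl1⟩ := (hT.connected u w1).exists_path_of_dist
  obtain ⟨p2, hp2, hl2⟩ := (hT.connected u w2).exists_path_of_dist
  have key : ∀ (w : W) (p : T.Walk u w), p.length = T.dist u w → T.dist u w + 1 = T.dist u v →
      v ∉ p.support := by
    intro w p hl hd hv
    have := SimpleGraph.dist_le (p.takeUntil v hv)
    have h' := p.length_takeUntil_le_length hv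
    omega
  have q1 : (p1.concat h1.symm).IsPath := hp1.concat (key _ p1 hl1 d1) _
  have q2 : (p2.concat h2.symm).IsPath := hp2.concat (key _ p2 hl2 d2) _
  have heq := (hT.existsUnique_path u v).unique q1 q2
  have := congrArg SimpleGraph.Walk.penultimate heq
  simpa using this

/-- rooted tree structure -/
lemma exists_rooted (hT : T.IsTree) (v0 : W) : ∃ (par : W → W) (dep : W → ℕ),
    dep v0 = 0 ∧ (∀ a, dep a < Fintype.card W) ∧
    (∀ a, a ≠ v0 → T.Adj a (par a) ∧ dep (par a) + 1 = dep a) ∧
    (∀ a b, T.Adj a b → (a ≠ v0 ∧ par a = b ∧ dep b + 1 = dep a) ∨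
      (b ≠ v0 ∧ par b = a ∧ dep a + 1 = dep b)) := by
  classical
  have hex : ∀ a, a ≠ v0 → ∃ b, T.Adj a b ∧ T.dist v0 b + 1 = T.dist v0 a := by
    intro a ha
    obtain ⟨p, hp, hl⟩ := (hT.connected v0 a).exists_path_of_dist
    have hn : ¬ p.Nil := by
      intro hnil
      exact ha hnil.eq.symm
    refine ⟨p.penultimate, (p.adj_penultimate hn).symm, ?_⟩
    have hadj := p.adj_penultimate hn
    rcases hT.dist_eq_dist_add_one_of_adj v0 hadj with h | h
    · exfalso
      have h1 := SimpleGraph.dist_le p.dropLast
      have h2 : p.dropLast.length + 1 = p.length := by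
        rw [SimpleGraph.Walk.length_dropLast_add_one hn]
      omega
    · exact h.symm
  refine ⟨fun a => if h : a ≠ v0 then (hex a h).choose else a, fun a => T.dist v0 a, ?_, ?_, ?_, ?_⟩
  · simp
  · intro a
    obtain ⟨p, hp, hl⟩ := (hT.connected v0 a).exists_path_of_dist
    change T.dist v0 a < _
    rw [← hl]
    exact hp.length_lt
  · intro a ha
    simp only [dif_pos ha]
    exact (hex a ha).choose_spec
  · intro a b hab
    rcases hT.dist_eq_dist_add_one_of_adj v0 hab with h | h
    · left
      have ha : a ≠ v0 := by
        rintro rfl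
        simp at h
      refine ⟨ha, ?_, h.symm⟩
      simp only [dif_pos ha]
      have hs := (hex a ha).choose_spec
      exact parent_unique hT hs.1 hab hs.2 h.symm
    · right
      have hb : b ≠ v0 := by
        rintro rfl
        simp at h
      refine ⟨hb, ?_, h.symm⟩
      simp only [dif_pos hb]
      have hs := (hex b hb).choose_spec
      exact parent_unique hT hs.1 hab.symm hs.2 h.symm

lemma levelEmb_of_card (hT : T.IsTree) {r : ℕ → ℕ} {m : ℕ} (hm : Fintype.card W ≤ m)
    (hr : ∀ j, 1 ≤ j → j ≤ m → 1 ≤ r j) : LevelEmb T r m := by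
  classical
  obtain ⟨v0⟩ := hT.connected.nonempty
  obtain ⟨par, dep, h0, h1, h2, h3⟩ := exists_rooted hT v0
  refine LevelEmb.mono (r := fun _ => 1) hr ⟨dep, fun a => ?_, fun a b hab => ?_, fun a => ?_⟩
  · have := h1 a; omega
  · rcases h3 a b hab with h | h <;> omega
  · rw [Finset.card_le_one]
    intro b hb c hc
    simp only [Finset.mem_filter, Finset.mem_univ, true_and] at hb hc
    rcases h3 a b hb.1 with h | h
    · rcases h3 a c hc.1 with h' | h'
      · rw [← h.2.1, ← h'.2.1]
      · omega
    · omega

lemma levelEmb_zigzag (hT : T.IsTree) {r : ℕ → ℕ} {m : ℕ} (hr : Fintype.card W ≤ r (m + 1)) :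
    LevelEmb T r (m + 1) := by
  classical
  obtain ⟨v0⟩ := hT.connected.nonempty
  obtain ⟨par, dep, h0, h1, h2, h3⟩ := exists_rooted hT v0
  refine ⟨fun a => m + dep a % 2, fun a => ?_, fun a b hab => ?_, fun a => ?_⟩
  · dsimp only; omega
  · dsimp only
    rcases h3 a b hab with h | h <;> omega
  · dsimp only
    by_cases ha : dep a % 2 = 0
    · refine le_trans (le_of_eq ?_) (Nat.zero_le _)
      rw [Finset.card_eq_zero]
      apply Finset.filter_eq_empty_iff.2
      intro b _ hb
      omega
    · have h : m + dep a % 2 = m + 1 := by omega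
      have e : r (m + dep a % 2) = r (m + 1) := by rw [h]
      rw [e]
      exact le_trans (Finset.card_le_univ _) hr

lemma star_of_levelEmb_one (hT : T.IsTree) {r : ℕ → ℕ} (hr : r 1 ≤ 1) (hl : LevelEmb T r 1)
    (v0 w0 : W) (hne : v0 ≠ w0) : ∃ v, ∀ w, w ≠ v → T.Adj v w := by
  classical
  obtain ⟨lam, h1, h2, h3⟩ := hl
  have hex : ∃ v, lam v = 0 := by
    by_contra hcon
    push Not at hcon
    obtain ⟨p⟩ := hT.connected v0 w0
    cases p with
    | nil => exact hne rfl
    | cons h p =>
      rename_i x
      have := h2 _ _ h
      have a1 := h1 v0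
      have a2 := h1 x
      have a3 := hcon v0
      have a4 := hcon x
      omega
  obtain ⟨v, hv⟩ := hex
  refine ⟨v, ?_⟩
  have key : ∀ w, T.Reachable v w → w = v ∨ T.Adj v w := by
    intro w hw
    obtain ⟨p⟩ := hw
    induction p using SimpleGraph.Walk.concatRec with
    | Hnil => left; rfl
    | Hconcat p h ih =>
      rename_i u x w
      rcases ih hv with rfl | hx
      · right; exact h
      · left
        have l1 := h2 _ _ hx
        have l2 := h2 _ _ h
        have l3 := h1 w
        have l4 := h1 x
        have hlx : lam x = 1 := by omega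
        have hlw : lam w = 0 := by omega
        have hc := h3 x
        rw [hlx] at hc
        have hc1 := hc.trans hr
        rw [Finset.card_le_one] at hc1
        exact hc1 w (by simp [h, hlw]) u (by simp [hx.symm, hv])
  intro w hw
  rcases key w (hT.connected v w) with h | h
  · exact absurd h hw
  · exact h

lemma exists_seq (hT : T.IsTree) (hns : ∀ v, ∃ w, w ≠ v ∧ ¬ T.Adj v w) :
    ∃ (N : ℕ) (r : ℕ → ℕ), 1 ≤ N ∧ (∀ j, 1 ≤ j → j ≤ N → 1 ≤ r j) ∧ r (N + 1) = 0 ∧
      ¬ LevelEmb T r N ∧
      ∀ j, 1 ≤ j → j ≤ N + 1 → LevelEmb T (Function.update r j (r j + 1)) j := by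
  classical
  by_contra hcon
  have claim : ∀ m : ℕ, ∃ r : ℕ → ℕ, (∀ j, 1 ≤ j → j ≤ m → 1 ≤ r j) ∧ ¬ LevelEmb T r m ∧
      ∀ j, 1 ≤ j → j ≤ m → LevelEmb T (Function.update r j (r j + 1)) j := by
    intro m
    induction m with
    | zero =>
      refine ⟨fun _ => 0, by intro j h1 h2; omega, ?_, by intro j h1 h2; omega⟩
      rintro ⟨lam, h1, h2, h3⟩
      obtain ⟨v0⟩ := hT.connected.nonempty
      obtain ⟨w, hw, -⟩ := hns v0
      obtain ⟨p⟩ := hT.connected v0 w
      cases p with
      | nil => exact hw rfl
      | cons h p =>
        rename_i x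
        have := h2 _ _ h
        have a1 := h1 v0
        have a2 := h1 x
        omega
    | succ m ih =>
      obtain ⟨r, hr1, hr2, hr3⟩ := ih
      by_cases hone : LevelEmb T (Function.update r (m + 1) 1) (m + 1)
      · exfalso
        apply hcon
        have hm : 1 ≤ m := by
          by_contra hm
          have hm0 : m = 0 := by omega
          subst hm0
          obtain ⟨v0⟩ := hT.connected.nonempty
          obtain ⟨w, hw, -⟩ := hns v0
          obtain ⟨v, hv⟩ := star_of_levelEmb_one hT (by simp) hone v0 w hw.symm
          obtain ⟨w', hw', hw''⟩ := hns v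
          exact hw'' (hv w' hw')
        refine ⟨m, Function.update r (m + 1) 0, hm, ?_, by simp, ?_, ?_⟩
        · intro j h1 h2
          rw [Function.update_of_ne (by omega)]
          exact hr1 j h1 h2
        · intro hl
          apply hr2
          refine LevelEmb.mono ?_ hl
          intro j h1 h2
          rw [Function.update_of_ne (by omega)]
        · intro j h1 h2
          rcases Nat.lt_or_ge j (m + 1) with hj | hj
          · refine LevelEmb.mono ?_ (hr3 j h1 (by omega))
            intro i h3 h4
            rcases eq_or_ne i j with rfl | hij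
            · rw [Function.update_self, Function.update_self, Function.update_of_ne (by omega)]
            · rw [Function.update_of_ne hij, Function.update_of_ne hij,
                Function.update_of_ne (by omega)]
          · have : j = m + 1 := by omega
            subst this
            refine LevelEmb.mono ?_ hone
            intro i h3 h4
            rcases eq_or_ne i (m + 1) with rfl | hij
            · rw [Function.update_self, Function.update_self, Function.update_self]
            · rw [Function.update_of_ne hij, Function.update_of_ne hij, Function.update_of_ne hij]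
      · have hex : ∃ ρ, LevelEmb T (Function.update r (m + 1) ρ) (m + 1) :=
          ⟨Fintype.card W, levelEmb_zigzag hT (by simp)⟩
        have hfind := Nat.find_spec hex
        have hmin : ∀ ρ, ρ < Nat.find hex → ¬ LevelEmb T (Function.update r (m + 1) ρ) (m + 1) :=
          fun ρ h => Nat.find_min hex h
        set ρ0 := Nat.find hex with hρ0
        have hge : 2 ≤ ρ0 := by
          by_contra hlt
          apply hone
          refine LevelEmb.mono ?_ hfind
          intro j h1 h2
          rcases eq_or_ne j (m + 1) with rfl | hj
          · rw [Function.update_self, Function.update_self]; omega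
          · rw [Function.update_of_ne hj, Function.update_of_ne hj]
        refine ⟨Function.update r (m + 1) (ρ0 - 1), ?_, hmin _ (by omega), ?_⟩
        · intro j h1 h2
          rcases eq_or_ne j (m + 1) with rfl | hj
          · rw [Function.update_self]; omega
          · rw [Function.update_of_ne hj]; exact hr1 j h1 (by omega)
        · intro j h1 h2
          rcases Nat.lt_or_ge j (m + 1) with hj | hj
          · refine LevelEmb.mono ?_ (hr3 j h1 (by omega))
            intro i h3 h4
            rcases eq_or_ne i j with rfl | hij
            · rw [Function.update_self, Function.update_self, Function.update_of_ne (by omega)]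
            · rw [Function.update_of_ne hij, Function.update_of_ne hij,
                Function.update_of_ne (by omega)]
          · have : j = m + 1 := by omega
            subst this
            refine LevelEmb.mono ?_ hfind
            intro i h3 h4
            rcases eq_or_ne i (m + 1) with rfl | hij
            · rw [Function.update_self, Function.update_self, Function.update_self]; omega
            · rw [Function.update_of_ne hij, Function.update_of_ne hij, Function.update_of_ne hij]
  obtain ⟨r, hr1, hr2, hr3⟩ := claim (Fintype.card W)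
  exact hr2 (levelEmb_of_card hT le_rfl hr1)

end

end Pool.Agent.W_MP_34e65c_co
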