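import Mathlib
import Pool.Agent.W_MP_34e65c_co.Host
import Pool.Agent.W_MP_34e65c_co.Tree
import Pool.Agent.W_MP_34e65c_co.Orient

namespace Pool.Agent.W_MP_34e65c_co

open Finset

section
variable {V : Type} [Fintype V] [DecidableEq V] {G : SimpleGraph V} {lev : V → ℕ}
  {s : ℕ → ℕ} {M B N : ℕ}

/-- iterated up-closure -/
def ancs (upAll : V → Finset V) (W0 : Finset V) : ℕ → Finset V
  | 0 => W0
  | t + 1 => (ancs upAll W0 t).biUnion upAll

/-- activated vertices -/
def acts (picks : V → Finset V) (W0 : Finset V) : ℕ → Finset V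
  | 0 => W0
  | t + 1 => (acts picks W0 t).biUnion picks

lemma star_of_leaves {W : Type} [Fintype W] {T : SimpleGraph W} (hT : T.IsTree) (a : W)
    (h : ∀ b, T.Adj a b → ∀ b', T.Adj b b' → b' = a) : ∀ w, w ≠ a → T.Adj a w := by
  have key : ∀ w, T.Reachable a w → w = a ∨ T.Adj a w := by
    intro w hw
    obtain ⟨p⟩ := hw
    induction p using SimpleGraph.Walk.concatRec with
    | Hnil => left; rfl
    | Hconcat p h' ih =>
      rename_i u x w
      rcases ih h with rfl | hx
      · right; exact h'
      · left
        exact h x hx w h'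
  intro w hw
  rcases key w (hT.connected a w) with h' | h'
  · exact absurd h' hw
  · exact h'

theorem IsHost.exists_free (h : IsHost G lev (N + 1) s M B) {W : Type} [Fintype W]
    {T : SimpleGraph W} (hT : T.IsTree) (hns : ∀ v, ∃ w, w ≠ v ∧ ¬ T.Adj v w)
    {q : ℕ} (hq : 2 ≤ q) {r : ℕ → ℕ} (hr : ∀ j, 1 ≤ j → j ≤ N → 1 ≤ r j)
    (hs : ∀ j, 1 ≤ j → j ≤ N → s j = q * r j) (hs1 : s (N + 1) = 1)
    (hnot : ¬ LevelEmb T r N)
    {σ : ℕ} (hσ : ∀ i, 1 ≤ i → i ≤ N + 1 → s i ≤ σ) (hσ1 : 1 ≤ σ)
    (W0 : Finset V) (hW0 : ∀ w ∈ W0, lev w = N)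
    (hB : W0.card * (N + 1) * σ ^ N * (1 + σ + M) ≤ B) :
    ∃ c : Sym2 V → Fin q, ∀ (f : W → V) (i : Fin q), Function.Injective f →
      ¬ ∀ a b, T.Adj a b → G.Adj (f a) (f b) ∧ (lev (f a) = N + 1 → f b ∈ W0) ∧
        c s(f a, f b) = i := by
  classical
  set upAll : V → Finset V := fun v => univ.filter (fun u => G.Adj v u ∧ lev u + 1 = lev v)
    with hupAll
  have hupc : ∀ v, 1 ≤ lev v → (upAll v).card = s (lev v) := by
    intro v hv
    rw [← h.up_card v hv]
  have hupσ : ∀ v, (upAll v).card ≤ σ := by
    intro v
    rcases Nat.eq_zero_or_pos (lev v) with h0 | h0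
    · have : upAll v = ∅ := by
        apply Finset.eq_empty_of_forall_notMem
        intro u hu
        simp only [hupAll, Finset.mem_filter] at hu
        omega
      rw [this]; simp
    · rw [hupc v h0]
      exact hσ _ h0 (h.lev_le v)
  have hmemup : ∀ u v, u ∈ upAll v ↔ G.Adj v u ∧ lev u + 1 = lev v := by
    intro u v
    simp only [hupAll, Finset.mem_filter, Finset.mem_univ, true_and]
  -- the neighbourhood of the ancestors
  set P1 : Finset V := (Finset.range (N + 1)).biUnion (ancs upAll W0) with hP1
  set P : Finset V := P1 ∪ P1.biUnion (fun v => univ.filter (fun u => G.Adj v u)) with hP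
  have hanccard : ∀ t, (ancs upAll W0 t).card ≤ W0.card * σ ^ t := by
    intro t
    induction t with
    | zero => simp [ancs]
    | succ t ih =>
      rw [ancs]
      calc _ ≤ (ancs upAll W0 t).card * σ := Finset.card_biUnion_le_card_mul _ _ _
            (fun v _ => hupσ v)
        _ ≤ W0.card * σ ^ t * σ := Nat.mul_le_mul_right _ ih
        _ = W0.card * σ ^ (t + 1) := by rw [pow_succ, mul_assoc]
  have hP1card : P1.card ≤ W0.card * (N + 1) * σ ^ N := by
    rw [hP1]
    calc _ ≤ (Finset.range (N + 1)).card * (W0.card * σ ^ N) := by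
          apply Finset.card_biUnion_le_card_mul
          intro t ht
          rw [Finset.mem_range] at ht
          exact (hanccard t).trans (Nat.mul_le_mul_left _ (Nat.pow_le_pow_right hσ1 (by omega)))
      _ = W0.card * (N + 1) * σ ^ N := by rw [Finset.card_range]; ring
  have hnbcard : ∀ v, (univ.filter (fun u => G.Adj v u)).card ≤ σ + M := by
    intro v
    have hsub : univ.filter (fun u => G.Adj v u) ⊆
        upAll v ∪ univ.filter (fun u => G.Adj v u ∧ lev u = lev v + 1) := by
      intro u hu
      rw [Finset.mem_filter] at hu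
      rw [Finset.mem_union, hmemup, Finset.mem_filter]
      rcases h.adj_lev v u hu.2 with h1 | h1
      · left; exact ⟨hu.2, h1.symm⟩
      · right; exact ⟨Finset.mem_univ _, hu.2, h1⟩
    refine (Finset.card_le_card hsub).trans ((Finset.card_union_le _ _).trans ?_)
    apply Nat.add_le_add (hupσ v)
    rcases Nat.lt_or_ge (lev v) (N + 1) with hv | hv
    · exact (h.down_card v hv).le
    · have : univ.filter (fun u => G.Adj v u ∧ lev u = lev v + 1) = ∅ := by
        apply Finset.filter_eq_empty_iff.2
        intro u _ hu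
        have := h.lev_le u
        omega
      rw [this]; simp
  have hPcard : P.card ≤ B := by
    refine le_trans ?_ hB
    rw [hP]
    calc _ ≤ P1.card + (P1.biUnion (fun v => univ.filter (fun u => G.Adj v u))).card :=
          Finset.card_union_le _ _
      _ ≤ P1.card + P1.card * (σ + M) := Nat.add_le_add_left
          (Finset.card_biUnion_le_card_mul _ _ _ (fun v _ => hnbcard v)) _
      _ = P1.card * (1 + σ + M) := by ring
      _ ≤ _ := Nat.mul_le_mul_right _ hP1card
  obtain ⟨p, hp⟩ := exists_orient h.even_free.sparse P hPcard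
  -- picks
  set cand : V → Finset V := fun v => (upAll v).filter (fun u => p u = v) with hcand
  have hpicks : ∃ picks : V → Finset V, (∀ v, picks v ⊆ cand v) ∧
      ∀ v, r (lev v) ≤ (cand v).card → (picks v).card = r (lev v) := by
    have : ∀ v, ∃ X : Finset V, X ⊆ cand v ∧ (r (lev v) ≤ (cand v).card → X.card = r (lev v)) := by
      intro v
      by_cases hc : r (lev v) ≤ (cand v).card
      · obtain ⟨X, hX1, hX2⟩ := Finset.exists_subset_card_eq hc
        exact ⟨X, hX1, fun _ => hX2⟩
      · exact ⟨∅, Finset.empty_subset _, fun h => absurd h hc⟩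
    choose X hX using this
    exact ⟨X, fun v => (hX v).1, fun v => (hX v).2⟩
  obtain ⟨picks, hpicks1, hpicks2⟩ := hpicks
  have hpickup : ∀ v u, u ∈ picks v → u ∈ upAll v ∧ p u = v := by
    intro v u hu
    have := hpicks1 v hu
    simp only [hcand] at this
    exact Finset.mem_filter.1 this
  -- the activated set
  set A : Finset V := (Finset.range (N + 1)).biUnion (acts picks W0) with hA
  have hactanc : ∀ t, acts picks W0 t ⊆ ancs upAll W0 t := by
    intro t
    induction t with
    | zero => exact Finset.Subset.refl _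
    | succ t ih =>
      rw [acts, ancs]
      intro u hu
      rw [Finset.mem_biUnion] at hu ⊢
      obtain ⟨v, hv, huv⟩ := hu
      exact ⟨v, ih hv, (hpickup v u huv).1⟩
  have hactlev : ∀ t, ∀ v ∈ acts picks W0 t, lev v + t = N := by
    intro t
    induction t with
    | zero => intro v hv; rw [acts] at hv; rw [hW0 v hv, add_zero]
    | succ t ih =>
      intro v hv
      rw [acts, Finset.mem_biUnion] at hv
      obtain ⟨u, hu, hvu⟩ := hv
      have h1 := ih u hu
      have h2 := ((hmemup v u).1 (hpickup u v hvu).1).2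
      omega
  have hW0A : W0 ⊆ A := by
    intro w hw
    rw [hA, Finset.mem_biUnion]
    exact ⟨0, Finset.mem_range.2 (by omega), hw⟩
  have hAlev : ∀ v ∈ A, lev v ≤ N := by
    intro v hv
    rw [hA, Finset.mem_biUnion] at hv
    obtain ⟨t, _, hv⟩ := hv
    have := hactlev t v hv
    omega
  have hAW0 : ∀ v ∈ A, lev v = N → v ∈ W0 := by
    intro v hv hvN
    rw [hA, Finset.mem_biUnion] at hv
    obtain ⟨t, _, hv⟩ := hv
    have := hactlev t v hv
    have : t = 0 := by omega
    subst this
    exact hv
  have hApar : ∀ v ∈ A, lev v < N → p v ∈ A ∧ v ∈ picks (p v) := by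
    intro v hv hvN
    rw [hA, Finset.mem_biUnion] at hv
    obtain ⟨t, ht, hv⟩ := hv
    have := hactlev t v hv
    obtain ⟨t', rfl⟩ : ∃ t', t = t' + 1 := ⟨t - 1, by omega⟩
    rw [acts, Finset.mem_biUnion] at hv
    obtain ⟨u, hu, hvu⟩ := hv
    have hpv := (hpickup u v hvu).2
    rw [Finset.mem_range] at ht
    rw [hpv]
    refine ⟨?_, hvu⟩
    rw [hA, Finset.mem_biUnion]
    exact ⟨t', Finset.mem_range.2 (by omega), hu⟩
  have hApicks : ∀ v ∈ A, ∀ u ∈ picks v, u ∈ A := by
    intro v hv u hu
    rw [hA, Finset.mem_biUnion] at hv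
    obtain ⟨t, ht, hv⟩ := hv
    have h1 := hactlev t v hv
    have h2 := ((hmemup u v).1 (hpickup v u hu).1).2
    rw [hA, Finset.mem_biUnion]
    refine ⟨t + 1, Finset.mem_range.2 (by omega), ?_⟩
    rw [acts, Finset.mem_biUnion]
    exact ⟨v, hv, hu⟩
  have hAP1 : A ⊆ P1 := by
    intro v hv
    rw [hA, Finset.mem_biUnion] at hv
    obtain ⟨t, ht, hv⟩ := hv
    rw [hP1, Finset.mem_biUnion]
    exact ⟨t, ht, hactanc t hv⟩
  have hAP : ∀ v ∈ A, v ∈ P := fun v hv => Finset.mem_union_left _ (hAP1 hv)
  have hANP : ∀ v ∈ A, ∀ u, G.Adj v u → u ∈ P := by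
    intro v hv u huv
    rw [hP, Finset.mem_union]
    right
    rw [Finset.mem_biUnion]
    exact ⟨v, hAP1 hv, Finset.mem_filter.2 ⟨Finset.mem_univ _, huv⟩⟩
  -- colours by level
  set c0 : Fin q := ⟨0, by omega⟩ with hc0
  set c1 : Fin q := ⟨1, by omega⟩ with hc1
  have hc01 : c0 ≠ c1 := by
    intro h
    have := congrArg Fin.val h
    simp [hc0, hc1] at this
  set gl : ℕ → Fin q := fun j => if Even j then c0 else c1 with hgl
  have hglne : ∀ j, gl (j + 1) ≠ gl j := by
    intro j
    simp only [hgl, Nat.even_add_one]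
    by_cases he : Even j
    · rw [if_pos he, if_neg (by simpa using he)]
      exact hc01.symm
    · rw [if_neg he, if_pos he]
      exact hc01
  set del : ℕ → Fin q := fun j => if j = N then gl N else gl (j + 1) with hdel
  -- colouring of the up-edges of each vertex
  have hcol : ∀ v, 1 ≤ lev v → lev v ≤ N → ∃ f : V → Fin q,
      (v ∉ A → (∀ c, ((upAll v).filter fun u => f u = c).card ≤ r (lev v)) ∧
        ∀ u ∈ upAll v, u ∈ A → f u ≠ gl (lev v)) ∧
      (v ∈ A → (∀ u ∈ picks v, f u = gl (lev v)) ∧
        (∀ u ∈ upAll v, u ∉ picks v → f u ≠ del (lev v)) ∧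
        ∀ c, ((upAll v \ picks v).filter fun u => f u = c).card ≤ r (lev v)) := by
    intro v hv1 hvN
    have hcup : (upAll v).card = q * r (lev v) := by rw [hupc v hv1, hs _ hv1 hvN]
    by_cases hvA : v ∈ A
    · -- activated
      have hrest : ∀ u ∈ upAll v, u ∉ cand v → u = p v := by
        intro u hu huc
        have hadj := ((hmemup u v).1 hu).1
        rcases hp v (hAP v hvA) u (hANP v hvA u hadj) hadj with h1 | h1
        · exact h1.symm
        · exfalso
          apply huc
          simp only [hcand]
          exact Finset.mem_filter.2 ⟨hu, h1⟩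
      have hcandc : q * r (lev v) ≤ (cand v).card + 1 := by
        rw [← hcup]
        have h1 : upAll v ⊆ insert (p v) (cand v) := by
          intro u hu
          by_cases huc : u ∈ cand v
          · exact Finset.mem_insert_of_mem huc
          · rw [hrest u hu huc]
            exact Finset.mem_insert_self _ _
        exact (Finset.card_le_card h1).trans (Finset.card_insert_le _ _)
      have hr1 := hr (lev v) hv1 hvN
      have hcge : r (lev v) ≤ (cand v).card := by nlinarith
      have hpc := hpicks2 v hcge
      have hpsub : picks v ⊆ upAll v := fun u hu => (hpickup v u hu).1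
      have hcard2 : (upAll v \ picks v).card ≤ (q - 1) * r (lev v) := by
        rw [Finset.card_sdiff_of_subset hpsub, hcup, hpc, Nat.sub_mul, one_mul]
      obtain ⟨f, hf1, hf2⟩ := exists_palette' (upAll v \ picks v) q (r (lev v)) hq hcard2
        (del (lev v))
      refine ⟨fun u => if u ∈ picks v then gl (lev v) else f u, fun h => absurd hvA h,
        fun _ => ⟨?_, ?_, ?_⟩⟩
      · intro u hu
        exact if_pos hu
      · intro u hu hup
        simp only [if_neg hup]
        exact hf1 u
      · intro c
        refine le_trans (le_of_eq ?_) (hf2 c)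
        congr 1
        apply Finset.filter_congr
        intro u hu
        rw [Finset.mem_sdiff] at hu
        simp only [if_neg hu.2]
    · obtain ⟨f, hf1, hf2⟩ := exists_palette (upAll v) q (r (lev v)) hq hcup.le (p v) (gl (lev v))
      refine ⟨f, fun _ => ⟨hf2, ?_⟩, fun h => absurd h hvA⟩
      intro u hu huA
      have hadj := (hmemup u v).1 hu
      have hulev : lev u < N := by omega
      obtain ⟨hpu, hpu2⟩ := hApar u huA hulev
      rcases hp u (hAP u huA) v (hANP u huA v hadj.1.symm) hadj.1.symm with h1 | h1
      · rw [h1] at hpu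
        exact absurd hpu hvA
      · rw [← h1]
        exact hf1
  have hcol' : ∀ v, ∃ f : V → Fin q, 1 ≤ lev v → lev v ≤ N →
      (v ∉ A → (∀ c, ((upAll v).filter fun u => f u = c).card ≤ r (lev v)) ∧
        ∀ u ∈ upAll v, u ∈ A → f u ≠ gl (lev v)) ∧
      (v ∈ A → (∀ u ∈ picks v, f u = gl (lev v)) ∧
        (∀ u ∈ upAll v, u ∉ picks v → f u ≠ del (lev v)) ∧
        ∀ c, ((upAll v \ picks v).filter fun u => f u = c).card ≤ r (lev v)) := by
    intro v
    by_cases hv1 : 1 ≤ lev v
    · by_cases hvN : lev v ≤ N
      · obtain ⟨f, hf⟩ := hcol v hv1 hvN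
        exact ⟨f, fun _ _ => hf⟩
      · exact ⟨fun _ => c0, fun _ h => absurd h hvN⟩
    · exact ⟨fun _ => c0, fun h => absurd h hv1⟩
  choose col0 hcol0 using hcol'
  set col : V → V → Fin q := fun v u => if lev v = N + 1 then gl N else col0 v u with hcoldef
  set c : Sym2 V → Fin q := Sym2.lift ⟨fun u v => if lev u < lev v then col v u else
      if lev v < lev u then col u v else c0, by
        intro u v
        dsimp only
        rcases lt_trichotomy (lev u) (lev v) with h1 | h1 | h1
        · rw [if_pos h1, if_neg (by omega), if_pos h1]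
        · rw [if_neg (by omega), if_neg (by omega), if_neg (by omega), if_neg (by omega)]
        · rw [if_neg (by omega), if_pos h1, if_pos h1]⟩ with hc
  have hcup : ∀ v u, lev u + 1 = lev v → c s(v, u) = col v u := by
    intro v u huv
    rw [hc, Sym2.lift_mk]
    simp only
    rw [if_neg (by omega), if_pos (by omega)]
  have hcup' : ∀ v u, lev u + 1 = lev v → lev v ≤ N → c s(v, u) = col0 v u := by
    intro v u huv hvN
    rw [hcup v u huv, hcoldef]
    simp only
    rw [if_neg (by omega)]
  refine ⟨c, ?_⟩
  intro f i hf hall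
  have hTnb : ∀ a, ∃ b, T.Adj a b := by
    intro a
    obtain ⟨w, hw, -⟩ := hns a
    obtain ⟨pw⟩ := hT.connected a w
    cases pw with
    | nil => exact absurd rfl hw
    | cons h _ => exact ⟨_, h⟩
  -- dead vertices
  set dead : V → Prop := fun u => u ∈ A ∧ lev u < N ∧ gl (lev u + 1) = i with hdead
  have claimD : ∀ u v, dead u → G.Adj u v → c s(u, v) = i →
      v = p u ∧ lev v = lev u + 1 ∧ v ∈ A ∧ u ∈ picks v := by
    intro u v hu huv hcuv
    obtain ⟨huA, huN, hgi⟩ := hu
    rcases h.adj_lev u v huv with h1 | h1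
    · exfalso
      have hvu : v ∈ upAll u := (hmemup v u).2 ⟨huv, h1.symm⟩
      rw [hcup' u v h1.symm (by omega)] at hcuv
      have h2 := (hcol0 u (by omega) (by omega)).2 huA
      by_cases hvp : v ∈ picks u
      · rw [h2.1 v hvp] at hcuv
        exact hglne (lev u) (hgi.trans hcuv.symm)
      · apply h2.2.1 v hvu hvp
        rw [hcuv, ← hgi, hdel]
        simp only
        rw [if_neg (by omega)]
    · have hvu : u ∈ upAll v := (hmemup u v).2 ⟨huv.symm, h1.symm⟩
      rw [Sym2.eq_swap, hcup' v u h1.symm (by omega)] at hcuv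
      have h2 := hcol0 v (by omega) (by omega)
      by_cases hvA : v ∈ A
      · have h3 := h2.2 hvA
        by_cases hup : u ∈ picks v
        · exact ⟨(hpickup v u hup).2.symm, h1, hvA, hup⟩
        · exfalso
          have h4 := h3.2.1 u hvu hup
          by_cases hvN : lev v = N
          · apply h4
            rw [hcuv, ← hgi, hdel]
            simp only
            rw [if_pos hvN, ← hvN, h1]
          · -- v special, so u is a pick of v
            have h5 := hApar u huA huN
            have h6 := hApar v hvA (by omega)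
            have h7 := hp u (hAP u huA) v (hAP v hvA) huv
            rcases h7 with h7 | h7
            · rw [h7] at h5
              exact hup h5.2
            · have h8 := ((hmemup _ _).1 (hpickup _ _ h6.2).1).2
              rw [h7] at h8
              omega
      · exfalso
        apply (h2.1 hvA).2 u hvu huA
        rw [hcuv, ← hgi, h1]
  -- case 1
  have case1 : ∀ a, f a ∈ W0 → gl N = i → False := by
    intro a haW hgi
    have hstar := star_of_leaves hT a (by
      intro b hab b' hbb'
      obtain ⟨g1, g2, g3⟩ := hall a b hab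
      obtain ⟨g4, g5, g6⟩ := hall b b' hbb'
      have hla := hW0 _ haW
      rcases h.adj_lev _ _ g1 with h1 | h1
      · -- f b is an up-neighbour of f a
        have hbu : f b ∈ upAll (f a) := (hmemup _ _).2 ⟨g1, h1.symm⟩
        rw [hcup' _ _ h1.symm (by omega)] at g3
        have h2 := (hcol0 (f a) (by omega) (by omega)).2 (hW0A haW)
        have hbp : f b ∈ picks (f a) := by
          by_contra hnp
          apply h2.2.1 _ hbu hnp
          rw [g3, ← hgi, hdel]
          simp only
          rw [if_pos hla]
        have hbd : dead (f b) := by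
          refine ⟨hApicks _ (hW0A haW) _ hbp, by omega, ?_⟩
          rw [← hgi, ← hla, h1]
        have h3 := (claimD _ _ hbd g4 g6).1
        have h4 := (hpickup _ _ hbp).2
        exact hf (h3.trans h4)
      · -- f b is a pendant
        have hlb : lev (f b) = N + 1 := by omega
        have h2 := hupc (f b) (by omega)
        rw [hlb, hs1, Finset.card_eq_one] at h2
        obtain ⟨z, hz⟩ := h2
        have m1 : f a ∈ upAll (f b) := (hmemup _ _).2 ⟨g1.symm, h1.symm⟩
        have m2 : f b' ∈ upAll (f b) := by
          refine (hmemup _ _).2 ⟨g4, ?_⟩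
          have := h.lev_le (f b')
          rcases h.adj_lev _ _ g4 with h3 | h3 <;> omega
        rw [hz, Finset.mem_singleton] at m1 m2
        exact hf (m2.trans m1.symm))
    obtain ⟨w, hw, hnw⟩ := hns a
    exact hnw (hstar w hw)
  have case2 : ∀ a, lev (f a) ≤ N := by
    intro a
    by_contra hgt
    have hla : lev (f a) = N + 1 := by
      have := h.lev_le (f a)
      omega
    obtain ⟨b, hab⟩ := hTnb a
    obtain ⟨g1, g2, g3⟩ := hall a b hab
    have hbW := g2 hla
    have hlb := hW0 _ hbW
    rw [hcup _ _ (by omega), hcoldef] at g3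
    simp only at g3
    rw [if_pos hla] at g3
    exact case1 b hbW g3
  -- the level embedding
  have hdl : ∀ a b, T.Adj a b → dead (f a) → lev (f b) = lev (f a) + 1 ∧ ¬ dead (f b) ∧
      lev (f b) < N := by
    intro a b hab hda
    obtain ⟨g1, g2, g3⟩ := hall a b hab
    obtain ⟨h1, h2, h3, h4⟩ := claimD _ _ hda g1 g3
    refine ⟨h2, ?_, ?_⟩
    · rintro ⟨_, _, h5⟩
      have h6 := hda.2.2
      rw [← h2] at h6
      exact hglne (lev (f b)) (h5.trans h6.symm)
    · by_contra hge
      have hlb : lev (f b) = N := by
        have := case2 b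
        omega
      have h6 := hda.2.2
      rw [← h2, hlb] at h6
      exact case1 b (hAW0 _ h3 hlb) h6
  apply hnot
  obtain ⟨lam, hlam⟩ : ∃ lam : W → ℕ, ∀ a, lam a = if dead (f a) then lev (f a) + 2 else lev (f a) :=
    ⟨_, fun _ => rfl⟩
  refine ⟨lam, ?_, ?_, ?_⟩
  · intro a
    rw [hlam]
    split_ifs with hda
    · obtain ⟨b, hab⟩ := hTnb a
      have := hdl a b hab hda
      omega
    · exact case2 a
  · intro a b hab
    rw [hlam, hlam]
    by_cases hda : dead (f a)
    · have h1 := hdl a b hab hda
      rw [if_pos hda, if_neg h1.2.1]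
      omega
    · by_cases hdb : dead (f b)
      · have h1 := hdl b a hab.symm hdb
        rw [if_neg hda, if_pos hdb]
        omega
      · rw [if_neg hda, if_neg hdb]
        rcases h.adj_lev _ _ (hall a b hab).1 with h1 | h1
        · left; exact h1
        · right; exact h1
  · intro a
    by_cases hda : dead (f a)
    · have hla : lam a = lev (f a) + 2 := by rw [hlam, if_pos hda]
      have hb1 : lev (f a) + 2 ≤ N := by
        obtain ⟨b, hab⟩ := hTnb a
        have := hdl a b hab hda
        omega
      refine le_trans ?_ (hr _ (by omega) (by omega))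
      rw [Finset.card_le_one]
      intro b hb b' hb'
      rw [Finset.mem_filter] at hb hb'
      have g := hall a b hb.2.1
      have g' := hall a b' hb'.2.1
      have h1 := (claimD _ _ hda g.1 g.2.2).1
      have h2 := (claimD _ _ hda g'.1 g'.2.2).1
      exact hf (h1.trans h2.symm)
    · have hla : lam a = lev (f a) := by rw [hlam, if_neg hda]
      -- all relevant neighbours are non-dead up-neighbours
      have hnbr : ∀ b, T.Adj a b → lam b + 1 = lam a →
          f b ∈ upAll (f a) ∧ ¬ dead (f b) ∧ c s(f a, f b) = i := by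
        intro b hab hlb
        have g := hall a b hab
        rw [hlam b] at hlb
        by_cases hdb : dead (f b)
        · exfalso
          have h1 := hdl b a hab.symm hdb
          rw [if_pos hdb] at hlb
          omega
        · rw [if_neg hdb, hla] at hlb
          exact ⟨(hmemup _ _).2 ⟨g.1, hlb⟩, hdb, g.2.2⟩
      rcases Nat.eq_zero_or_pos (lev (f a)) with h0 | h0
      · refine le_trans (le_of_eq ?_) (Nat.zero_le _)
        rw [Finset.card_eq_zero]
        apply Finset.filter_eq_empty_iff.2
        intro b _ hb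
        omega
      · have hvN := case2 a
        have hcv := hcol0 (f a) h0 hvN
        rw [← hla] at hcv
        by_cases hvA : f a ∈ A
        · refine le_trans ?_ ((hcv.2 hvA).2.2 i)
          apply Finset.card_le_card_of_injOn f
          · intro b hb
            rw [Finset.mem_coe, Finset.mem_filter] at hb
            obtain ⟨h1, h2, h3⟩ := hnbr b hb.2.1 hb.2.2
            have h4 := ((hmemup _ _).1 h1).2
            rw [hcup' (f a) _ h4 hvN] at h3
            rw [Finset.mem_coe, Finset.mem_filter, Finset.mem_sdiff]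
            refine ⟨⟨h1, fun hpk => h2 ?_⟩, h3⟩
            refine ⟨hApicks (f a) hvA _ hpk, by omega, ?_⟩
            rw [h4, ← h3, (hcv.2 hvA).1 _ hpk, hla]
          · exact hf.injOn
        · refine le_trans ?_ ((hcv.1 hvA).1 i)
          apply Finset.card_le_card_of_injOn f
          · intro b hb
            rw [Finset.mem_coe, Finset.mem_filter] at hb
            obtain ⟨h1, h2, h3⟩ := hnbr b hb.2.1 hb.2.2
            have h4 := ((hmemup _ _).1 h1).2
            rw [hcup' (f a) _ h4 hvN] at h3
            rw [Finset.mem_coe, Finset.mem_filter]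
            exact ⟨h1, h3⟩
          · exact hf.injOn

end

end Pool.Agent.W_MP_34e65c_co
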