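import Mathlib
import Pool.Agent.W_MP_34e65c_co.Tree
import Pool.Agent.W_MP_34e65c_co.Cover

namespace Pool.Agent.W_MP_34e65c_co

open Finset

lemma exists_mono_copy {W : Type} [Fintype W] [DecidableEq W] {T : SimpleGraph W} (hT : T.IsTree)
    {V : Type} [Fintype V] [DecidableEq V] {G : SimpleGraph V} {B : ℕ} (hsp : Sparse G B)
    (hB : Fintype.card W ≤ B) (lev : V → ℕ) (C : V → V → Prop) (hCG : ∀ u v, C u v → G.Adj u v)
    (hCs : ∀ u v, C u v → C v u) (up down : V → Finset V)
    (hup : ∀ u v, u ∈ up v ↔ C v u ∧ lev u + 1 = lev v)
    (hdown : ∀ u v, u ∈ down v ↔ C v u ∧ lev u = lev v + 1)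
    (A : Finset V) (j : ℕ) (r : ℕ → ℕ)
    (hA2 : ∀ v ∈ A, up v ⊆ A)
    (hA3 : ∀ v ∈ A, 1 ≤ lev v → r (lev v) ≤ (up v).card)
    (hr : ∀ i, 1 ≤ i → i ≤ j → 1 ≤ r i)
    (hA4 : ∀ v ∈ A, lev v < j → Fintype.card W ≤ (down v ∩ A).card)
    (hA5 : ∃ v ∈ A, lev v = j)
    (hl : LevelEmb T r j) :
    ∃ f : W → V, Function.Injective f ∧ ∀ a b, T.Adj a b → C (f a) (f b) := by
  classical
  obtain ⟨lam, hl1, hl2, hl3⟩ := hl
  obtain ⟨v0⟩ := hT.connected.nonempty
  obtain ⟨par, dep, hd0, hd1, hd2, hd3⟩ := exists_rooted hT v0
  -- vertices on every level
  have hlevels : ∀ i, i ≤ j → ∃ v ∈ A, lev v = j - i := by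
    intro i
    induction i with
    | zero => intro _; simpa using hA5
    | succ i ih =>
      intro hi
      obtain ⟨v, hv, hvl⟩ := ih (by omega)
      have h1 : 1 ≤ (up v).card := by
        refine le_trans ?_ (hA3 v hv (by omega))
        exact hr _ (by omega) (by omega)
      obtain ⟨u, hu⟩ := Finset.card_pos.1 h1
      refine ⟨u, hA2 v hv hu, ?_⟩
      have := ((hup u v).1 hu).2
      omega
  have hpar0 : ∀ a, a ≠ v0 → par a ≠ a := by
    intro a ha h
    have := (hd2 a ha).1
    rw [h] at this
    exact this.ne rfl
  have claim : ∀ m, 1 ≤ m → m ≤ Fintype.card W → ∃ (S : Finset W) (f : W → V), S.card = m ∧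
      v0 ∈ S ∧ (∀ a ∈ S, a ≠ v0 → par a ∈ S) ∧ Set.InjOn f S ∧
      (∀ a ∈ S, f a ∈ A ∧ lev (f a) = lam a) ∧ ∀ a ∈ S, a ≠ v0 → C (f a) (f (par a)) := by
    intro m
    induction m with
    | zero => intro h; omega
    | succ m ih =>
      intro _ hm
      rcases Nat.eq_zero_or_pos m with rfl | hmpos
      · obtain ⟨v, hv, hvl⟩ := hlevels (j - lam v0) (by omega)
        refine ⟨{v0}, fun _ => v, by simp, by simp, ?_, ?_, ?_, ?_⟩
        · intro a ha hne
          rw [Finset.mem_singleton] at ha
          exact absurd ha hne
        · simp
        · intro a ha
          rw [Finset.mem_singleton] at ha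
          subst ha
          have := hl1 a
          exact ⟨hv, by dsimp only; omega⟩
        · intro a ha hne
          rw [Finset.mem_singleton] at ha
          exact absurd ha hne
      · obtain ⟨S, f, hSc, hv0S, hScl, hinj, hfA, hfC⟩ := ih hmpos (by omega)
        -- choose a new vertex of minimal depth
        have hne : (Sᶜ).Nonempty := by
          rw [← Finset.card_pos, Finset.card_compl]
          omega
        obtain ⟨b, hbS, hbmin⟩ := Finset.exists_min_image Sᶜ dep hne
        rw [Finset.mem_compl] at hbS
        have hbv0 : b ≠ v0 := by rintro rfl; exact hbS hv0S
        set a := par b with ha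
        have haS : a ∈ S := by
          by_contra hcon
          have h1 := hbmin a (Finset.mem_compl.2 hcon)
          have h2 := (hd2 b hbv0).2
          rw [← ha] at h2
          omega
        have hab : T.Adj a b := (hd2 b hbv0).1.symm
        have himg : (S.image f).card = m := by
          rw [Finset.card_image_of_injOn hinj, hSc]
        have hexu : ∃ u ∈ A, lev u = lam b ∧ C (f a) u ∧ u ∉ S.image f := by
          rcases hl2 a b hab with h | h
          · -- up
            by_contra hcon
            push Not at hcon
            have hlev1 : 1 ≤ lev (f a) := by rw [(hfA a haS).2]; omega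
            set Z := S.filter (fun b' => T.Adj a b' ∧ lam b' + 1 = lam a) with hZ
            have hsub : up (f a) ⊆ Z.image f := by
              intro u hu
              have hu' := (hup u (f a)).1 hu
              have huA := hA2 _ (hfA a haS).1 hu
              have hlevu : lev u = lam b := by
                have := hu'.2
                rw [(hfA a haS).2] at this
                omega
              have := hcon u huA hlevu hu'.1
              rw [Finset.mem_image] at this
              obtain ⟨b', hb'S, rfl⟩ := this
              rw [Finset.mem_image]
              refine ⟨b', ?_, rfl⟩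
              rw [hZ, Finset.mem_filter]
              refine ⟨hb'S, ?_, by rw [← (hfA b' hb'S).2, hlevu]; omega⟩
              by_contra hnadj
              -- contradiction with sparsity
              have hneab : a ≠ b' := by
                rintro rfl
                exact (hCG _ _ hu'.1).ne rfl
              set E := (S.erase v0).image (fun c => s(f c, f (par c))) with hE
              have hEcard : E.card = m - 1 := by
                rw [hE, Finset.card_image_of_injOn, Finset.card_erase_of_mem hv0S, hSc]
                intro c hc c' hc' hcc
                rw [Finset.mem_coe, Finset.mem_erase] at hc hc'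
                simp only [Sym2.eq_iff] at hcc
                rcases hcc with ⟨h1, _⟩ | ⟨h1, h2⟩
                · exact hinj hc.2 hc'.2 h1
                · have e1 := hinj hc.2 (hScl c' hc'.2 hc'.1) h1
                  have e2 := hinj (hScl c hc.2 hc.1) hc'.2 h2
                  have d1 := (hd2 c hc.1).2
                  have d2 := (hd2 c' hc'.1).2
                  rw [e2] at d1
                  rw [← e1] at d2
                  omega
              have hnew : s(f a, f b') ∉ E := by
                intro hmem
                rw [hE, Finset.mem_image] at hmem
                obtain ⟨c, hc, hcc⟩ := hmem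
                rw [Finset.mem_erase] at hc
                rw [Sym2.eq_iff] at hcc
                rcases hcc with ⟨h1, h2⟩ | ⟨h1, h2⟩
                · have e1 := hinj hc.2 haS h1
                  have e2 := hinj (hScl c hc.2 hc.1) hb'S h2
                  apply hnadj
                  rw [← e1, ← e2]
                  exact (hd2 c hc.1).1
                · have e1 := hinj hc.2 hb'S h1
                  have e2 := hinj (hScl c hc.2 hc.1) haS h2
                  apply hnadj
                  rw [← e1, ← e2]
                  exact (hd2 c hc.1).1.symm
              have hlt := hsp (S.image f) (insert s(f a, f b') E)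
                ⟨f a, Finset.mem_image_of_mem f haS⟩ (by omega) ?_ ?_
              · rw [Finset.card_insert_of_notMem hnew, hEcard, himg] at hlt
                omega
              · intro e he
                rw [Finset.mem_insert] at he
                rcases he with rfl | he
                · exact hCG _ _ hu'.1
                · rw [hE, Finset.mem_image] at he
                  obtain ⟨c, hc, rfl⟩ := he
                  rw [Finset.mem_erase] at hc
                  exact hCG _ _ (hfC c hc.2 hc.1)
              · intro e he v hv
                rw [Finset.mem_insert] at he
                rcases he with rfl | he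
                · rw [Sym2.mem_iff] at hv
                  rcases hv with rfl | rfl
                  · exact Finset.mem_image_of_mem f haS
                  · exact Finset.mem_image_of_mem f hb'S
                · rw [hE, Finset.mem_image] at he
                  obtain ⟨c, hc, rfl⟩ := he
                  rw [Finset.mem_erase] at hc
                  rw [Sym2.mem_iff] at hv
                  rcases hv with rfl | rfl
                  · exact Finset.mem_image_of_mem f hc.2
                  · exact Finset.mem_image_of_mem f (hScl c hc.2 hc.1)
            have h1 : (up (f a)).card ≤ Z.card :=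
              (Finset.card_le_card hsub).trans Finset.card_image_le
            have h2 : r (lam a) ≤ (up (f a)).card := by
              have := hA3 _ (hfA a haS).1 hlev1
              rwa [(hfA a haS).2] at this
            have h3 : Z.card + 1 ≤ r (lam a) := by
              refine le_trans ?_ (hl3 a)
              have hbZ : b ∉ Z := by
                intro hb
                rw [hZ, Finset.mem_filter] at hb
                exact hbS hb.1
              rw [← Finset.card_insert_of_notMem hbZ]
              apply Finset.card_le_card
              intro x hx
              rw [Finset.mem_insert] at hx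
              rw [Finset.mem_filter]
              rcases hx with rfl | hx
              · exact ⟨Finset.mem_univ _, hab, h.symm⟩
              · rw [hZ, Finset.mem_filter] at hx
                exact ⟨Finset.mem_univ _, hx.2⟩
            omega
          · -- down
            have hlt : lev (f a) < j := by
              rw [(hfA a haS).2]
              have := hl1 b
              omega
            have h1 := hA4 _ (hfA a haS).1 hlt
            have h2 : (S.image f).card < (down (f a) ∩ A).card := by omega
            obtain ⟨u, hu, hu'⟩ := Finset.exists_mem_notMem_of_card_lt_card h2
            rw [Finset.mem_inter] at hu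
            have hu2 := (hdown u (f a)).1 hu.1
            refine ⟨u, hu.2, ?_, hu2.1, hu'⟩
            rw [hu2.2, (hfA a haS).2, h]
        obtain ⟨u, huA, hul, huC, hunot⟩ := hexu
        have hupd : ∀ c ∈ S, Function.update f b u c = f c := by
          intro c hc
          rw [Function.update_of_ne]
          rintro rfl
          exact hbS hc
        refine ⟨insert b S, Function.update f b u, ?_, ?_, ?_, ?_, ?_, ?_⟩
        · rw [Finset.card_insert_of_notMem hbS, hSc]
        · exact Finset.mem_insert_of_mem hv0S
        · intro c hc hcv
          rw [Finset.mem_insert] at hc
          rcases hc with rfl | hc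
          · exact Finset.mem_insert_of_mem haS
          · exact Finset.mem_insert_of_mem (hScl c hc hcv)
        · intro c hc c' hc' hcc
          rw [Finset.coe_insert, Set.mem_insert_iff, Finset.mem_coe] at hc hc'
          rcases hc with rfl | hc
          · rcases hc' with rfl | hc'
            · rfl
            · rw [Function.update_self, hupd c' hc'] at hcc
              exact absurd (hcc ▸ Finset.mem_image_of_mem f hc') hunot
          · rcases hc' with rfl | hc'
            · rw [Function.update_self, hupd c hc] at hcc
              exact absurd (hcc ▸ Finset.mem_image_of_mem f hc) hunot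
            · rw [hupd c hc, hupd c' hc'] at hcc
              exact hinj hc hc' hcc
        · intro c hc
          rw [Finset.mem_insert] at hc
          rcases hc with rfl | hc
          · rw [Function.update_self]
            exact ⟨huA, hul⟩
          · rw [hupd c hc]
            exact hfA c hc
        · intro c hc hcv
          rw [Finset.mem_insert] at hc
          rcases hc with rfl | hc
          · rw [Function.update_self, hupd _ haS]
            exact hCs _ _ huC
          · rw [hupd c hc, hupd _ (hScl c hc hcv)]
            exact hfC c hc hcv
  have hcard : 1 ≤ Fintype.card W := Fintype.card_pos_iff.2 ⟨v0⟩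
  obtain ⟨S, f, hSc, -, -, hinj, hfA, hfC⟩ := claim (Fintype.card W) hcard le_rfl
  have hS : S = univ := (Finset.card_eq_iff_eq_univ S).1 hSc
  subst hS
  refine ⟨f, fun x y h => hinj (Finset.mem_coe.2 (Finset.mem_univ x))
    (Finset.mem_coe.2 (Finset.mem_univ y)) h, ?_⟩
  intro a b hab
  rcases hd3 a b hab with ⟨h1, h2, _⟩ | ⟨h1, h2, _⟩
  · rw [← h2]; exact hfC a (Finset.mem_univ _) h1
  · rw [← h2]; exact hCs _ _ (hfC b (Finset.mem_univ _) h1)

end Pool.Agent.W_MP_34e65c_co
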