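import Mathlib

namespace Pool.Agent.W_MP_34e65c_co

open Finset

section
variable {V : Type} [Fintype V] [DecidableEq V]

/-- iterated lower neighbourhoods inside `A` -/
def desc (down : V → Finset V) (A : Finset V) (x : V) : ℕ → Finset V
  | 0 => {x}
  | t + 1 => (desc down A x t).biUnion (fun y => down y ∩ A)

lemma exists_closed (lev : V → ℕ) (up down : V → Finset V)
    (hud : ∀ u v, u ∈ up v ↔ v ∈ down u) (hlev : ∀ u v, u ∈ up v → lev u + 1 = lev v)
    (M NT : ℕ) (hM : ∀ v, (down v).card ≤ M) (hNT : 1 ≤ NT) (hM1 : 1 ≤ M) (j : ℕ)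
    (Y : Finset V)
    (hpot : ∑ v ∈ univ.filter (fun v => lev v < j),
        (NT * M ^ (j - lev v - 1) + (if v ∈ Y then 0 else M ^ (j - lev v)))
      < (Y.filter fun v => lev v = j).card) :
    ∃ A : Finset V, (∀ v ∈ A, v ∈ Y ∧ lev v ≤ j) ∧ (∀ v ∈ A, up v ⊆ A) ∧
      (∀ v ∈ A, lev v < j → NT ≤ (down v ∩ A).card) ∧ ∃ v ∈ A, lev v = j := by
  classical
  set w : V → ℤ := fun v => if lev v < j then
    -((NT : ℤ) * (M : ℤ) ^ (j - lev v - 1) + (if v ∈ Y then 0 else (M : ℤ) ^ (j - lev v))) else 1
    with hw
  have hwneg : ∀ v, lev v < j → w v ≤ 0 := by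
    intro v hv
    simp only [hw, if_pos hv]
    have : (0 : ℤ) ≤ (NT : ℤ) * (M : ℤ) ^ (j - lev v - 1) := by positivity
    split_ifs
    · linarith
    · have : (0 : ℤ) ≤ (M : ℤ) ^ (j - lev v) := by positivity
      linarith
  set fam : Finset (Finset V) := univ.filter (fun A =>
    (∀ v ∈ A, lev v ≤ j ∧ (lev v = j → v ∈ Y)) ∧ (∀ v ∈ A, up v ⊆ A)) with hfam
  set A0 : Finset V := univ.filter (fun v => lev v < j ∨ (lev v = j ∧ v ∈ Y)) with hA0
  have hA0fam : A0 ∈ fam := by
    rw [hfam, Finset.mem_filter]
    refine ⟨Finset.mem_univ _, ?_, ?_⟩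
    · intro v hv
      rw [hA0, Finset.mem_filter] at hv
      rcases hv.2 with h | h
      · exact ⟨by omega, fun h' => by omega⟩
      · exact ⟨by omega, fun _ => h.2⟩
    · intro v hv u hu
      rw [hA0, Finset.mem_filter] at hv ⊢
      have := hlev u v hu
      refine ⟨Finset.mem_univ _, Or.inl ?_⟩
      rcases hv.2 with h | h <;> omega
  obtain ⟨A, hAfam, hAmax⟩ := Finset.exists_max_image fam (fun A => ∑ v ∈ A, w v) ⟨A0, hA0fam⟩
  rw [hfam, Finset.mem_filter] at hAfam
  obtain ⟨-, hA1, hA2⟩ := hAfam
  have hpos : 0 < ∑ v ∈ A, w v := by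
    refine lt_of_lt_of_le ?_ (hAmax A0 hA0fam)
    have h1 : ∑ v ∈ A0, w v = ∑ v ∈ univ.filter (fun v => lev v < j), w v +
        ∑ v ∈ Y.filter (fun v => lev v = j), w v := by
      rw [← Finset.sum_union]
      · apply Finset.sum_congr _ (fun _ _ => rfl)
        ext v
        simp only [hA0, Finset.mem_filter, Finset.mem_univ, true_and, Finset.mem_union]
        tauto
      · rw [Finset.disjoint_left]
        intro v hv hv'
        rw [Finset.mem_filter] at hv hv'
        omega
    have h2 : ∑ v ∈ Y.filter (fun v => lev v = j), w v = (Y.filter fun v => lev v = j).card := by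
      rw [Finset.card_eq_sum_ones, Nat.cast_sum]
      apply Finset.sum_congr rfl
      intro v hv
      rw [Finset.mem_filter] at hv
      simp [hw, hv.2]
    have h3 : ∑ v ∈ univ.filter (fun v => lev v < j), w v =
        -((∑ v ∈ univ.filter (fun v => lev v < j),
        (NT * M ^ (j - lev v - 1) + (if v ∈ Y then 0 else M ^ (j - lev v))) : ℕ) : ℤ) := by
      rw [Nat.cast_sum, ← Finset.sum_neg_distrib]
      apply Finset.sum_congr rfl
      intro v hv
      rw [Finset.mem_filter] at hv
      simp only [hw, if_pos hv.2]
      push_cast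
      rfl
    rw [h1, h2, h3]
    have : ((∑ v ∈ univ.filter (fun v => lev v < j),
        (NT * M ^ (j - lev v - 1) + (if v ∈ Y then 0 else M ^ (j - lev v))) : ℕ) : ℤ) <
        ((Y.filter fun v => lev v = j).card : ℤ) := by exact_mod_cast hpot
    linarith
  -- removal argument
  have removal : ∀ x ∈ A, lev x < j →
      w x + ((down x ∩ A).card : ℤ) * (M : ℤ) ^ (j - lev x - 1) < 0 → False := by
    intro x hx hxj hneg
    have hlevE : ∀ t, ∀ v ∈ desc down A x t, lev v = lev x + t := by
      intro t
      induction t with
      | zero =>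
        intro v hv
        rw [desc, Finset.mem_singleton] at hv
        rw [hv, add_zero]
      | succ t ih =>
        intro v hv
        rw [desc, Finset.mem_biUnion] at hv
        obtain ⟨y, hy, hv⟩ := hv
        rw [Finset.mem_inter] at hv
        have := hlev y v ((hud y v).2 hv.1)
        have := ih y hy
        omega
    have hsubE : ∀ t, desc down A x t ⊆ A := by
      intro t
      induction t with
      | zero =>
        intro v hv
        rw [desc, Finset.mem_singleton] at hv
        rw [hv]; exact hx
      | succ t ih =>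
        intro v hv
        rw [desc, Finset.mem_biUnion] at hv
        obtain ⟨y, hy, hv⟩ := hv
        exact (Finset.mem_inter.1 hv).2
    have hcardE : ∀ t, (desc down A x (t + 1)).card ≤ (down x ∩ A).card * M ^ t := by
      intro t
      induction t with
      | zero =>
        have : desc down A x (0 + 1) = down x ∩ A := by
          simp [desc]
        rw [this, pow_zero, mul_one]
      | succ t ih =>
        rw [desc]
        calc ((desc down A x (t + 1)).biUnion (fun y => down y ∩ A)).card
            ≤ (desc down A x (t + 1)).card * M := by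
              apply Finset.card_biUnion_le_card_mul
              intro y _
              exact (Finset.card_le_card Finset.inter_subset_left).trans (hM y)
          _ ≤ (down x ∩ A).card * M ^ t * M := Nat.mul_le_mul_right _ ih
          _ = (down x ∩ A).card * M ^ (t + 1) := by rw [pow_succ, mul_assoc]
    set R : Finset V := (Finset.range (j + 1)).biUnion (desc down A x) with hR
    have hxR : x ∈ R := by
      rw [hR, Finset.mem_biUnion]
      exact ⟨0, Finset.mem_range.2 (by omega), by simp [desc]⟩
    have hRA : R ⊆ A := by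
      intro v hv
      rw [hR, Finset.mem_biUnion] at hv
      obtain ⟨t, _, hv⟩ := hv
      exact hsubE t hv
    have hRlev : (R.filter fun v => lev v = j) ⊆ desc down A x (j - lev x) := by
      intro v hv
      rw [Finset.mem_filter, hR, Finset.mem_biUnion] at hv
      obtain ⟨⟨t, _, hv⟩, hvj⟩ := hv
      have := hlevE t v hv
      have : t = j - lev x := by omega
      rw [← this]; exact hv
    have hclosed : A \ R ∈ fam := by
      rw [hfam, Finset.mem_filter]
      refine ⟨Finset.mem_univ _, fun v hv => hA1 v (Finset.mem_sdiff.1 hv).1, ?_⟩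
      intro v hv u hu
      rw [Finset.mem_sdiff] at hv ⊢
      refine ⟨hA2 v hv.1 hu, fun huR => hv.2 ?_⟩
      rw [hR, Finset.mem_biUnion] at huR ⊢
      obtain ⟨t, _, hut⟩ := huR
      have h1 := hlevE t u hut
      have h2 := hlev u v hu
      have h3 := (hA1 v hv.1).1
      refine ⟨t + 1, Finset.mem_range.2 (by omega), ?_⟩
      rw [desc, Finset.mem_biUnion]
      exact ⟨u, hut, Finset.mem_inter.2 ⟨(hud u v).1 hu, hv.1⟩⟩
    have h1 := hAmax _ hclosed
    have h2 := Finset.sum_sdiff (f := w) hRA
    have h3 : ∑ v ∈ R, w v < 0 := by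
      rw [← Finset.add_sum_erase _ _ hxR]
      have h4 : ∑ v ∈ R.erase x, w v ≤ ((R.filter fun v => lev v = j).card : ℤ) := by
        rw [Finset.card_eq_sum_ones, Nat.cast_sum]
        rw [← Finset.sum_filter_add_sum_filter_not (R.erase x) (fun v => lev v = j)]
        have a1 : ∑ v ∈ (R.erase x).filter (fun v => ¬ lev v = j), w v ≤ 0 := by
          apply Finset.sum_nonpos
          intro v hv
          rw [Finset.mem_filter, Finset.mem_erase] at hv
          apply hwneg
          have := (hA1 v (hRA hv.1.2)).1
          omega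
        have a2 : ∑ v ∈ (R.erase x).filter (fun v => lev v = j), w v ≤
            ∑ v ∈ R.filter (fun v => lev v = j), ((1 : ℕ) : ℤ) := by
          have : (R.erase x).filter (fun v => lev v = j) = R.filter (fun v => lev v = j) := by
            ext v
            simp only [Finset.mem_filter, Finset.mem_erase]
            constructor
            · rintro ⟨⟨_, h⟩, h'⟩; exact ⟨h, h'⟩
            · rintro ⟨h, h'⟩
              refine ⟨⟨?_, h⟩, h'⟩
              rintro rfl
              omega
          rw [this]
          apply Finset.sum_le_sum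
          intro v hv
          rw [Finset.mem_filter] at hv
          simp [hw, hv.2]
        linarith
      have h5 : ((R.filter fun v => lev v = j).card : ℤ) ≤
          ((down x ∩ A).card : ℤ) * (M : ℤ) ^ (j - lev x - 1) := by
        have h6 := (Finset.card_le_card hRlev)
        have e : j - lev x = (j - lev x - 1) + 1 := by omega
        rw [e] at h6
        have h7 := h6.trans (hcardE _)
        exact_mod_cast h7
      linarith
    linarith
  have hAY : ∀ v ∈ A, v ∈ Y := by
    intro x hx
    rcases Nat.lt_or_ge (lev x) j with hxj | hxj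
    · by_contra hxY
      apply removal x hx hxj
      simp only [hw, if_pos hxj, if_neg hxY]
      have h1 : (((down x ∩ A).card : ℕ) : ℤ) ≤ M := by
        exact_mod_cast (Finset.card_le_card Finset.inter_subset_left).trans (hM x)
      have h2 : (M : ℤ) ^ (j - lev x) = M * (M : ℤ) ^ (j - lev x - 1) := by
        rw [← pow_succ']
        congr 1
        omega
      have h3 : (0 : ℤ) < (M : ℤ) ^ (j - lev x - 1) := by positivity
      have h4 : (1 : ℤ) ≤ NT := by exact_mod_cast hNT
      rw [h2]
      nlinarith
    · have := hA1 x hx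
      exact this.2 (by omega)
  refine ⟨A, fun v hv => ⟨hAY v hv, (hA1 v hv).1⟩, hA2, ?_, ?_⟩
  · intro x hx hxj
    by_contra hlt
    push Not at hlt
    apply removal x hx hxj
    simp only [hw, if_pos hxj, if_pos (hAY x hx)]
    have h1 : (((down x ∩ A).card : ℕ) : ℤ) + 1 ≤ NT := by exact_mod_cast hlt
    have h3 : (0 : ℤ) < (M : ℤ) ^ (j - lev x - 1) := by positivity
    nlinarith
  · by_contra hcon
    push Not at hcon
    have : ∑ v ∈ A, w v ≤ 0 := by
      apply Finset.sum_nonpos
      intro v hv
      apply hwneg
      have h1 := (hA1 v hv).1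
      have h2 := hcon v hv
      omega
    linarith

end

end Pool.Agent.W_MP_34e65c_co
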