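import Mathlib
import Pool.Agent.W_MP_34e65c_co.Host
import Pool.Agent.W_MP_34e65c_co.Embed
import Pool.Agent.W_MP_34e65c_co.Potential

namespace Pool.Agent.W_MP_34e65c_co

open Finset

section
variable {V : Type} [Fintype V] [DecidableEq V] {G : SimpleGraph V} {lev : V → ℕ}
  {n : ℕ} {s : ℕ → ℕ} {M B : ℕ}

lemma IsHost.level_count (h : IsHost G lev n s M B) {k : ℕ} (hk : k < n) :
    M * (univ.filter fun v => lev v = k).card =
      s (k + 1) * (univ.filter fun v => lev v = k + 1).card := by
  classical
  have h1 := Finset.sum_card_bipartiteAbove_eq_sum_card_bipartiteBelow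
    (s := univ.filter fun v => lev v = k) (t := univ.filter fun v => lev v = k + 1)
    (fun u v => G.Adj u v)
  have h2 : ∑ a ∈ univ.filter (fun v => lev v = k),
      (Finset.bipartiteAbove (fun u v => G.Adj u v) (univ.filter fun v => lev v = k + 1) a).card =
      ∑ a ∈ univ.filter (fun v => lev v = k), M := by
    apply Finset.sum_congr rfl
    intro a ha
    rw [Finset.mem_filter] at ha
    rw [← h.down_card a (by omega)]
    congr 1
    ext u
    simp only [Finset.mem_bipartiteAbove, Finset.mem_filter, Finset.mem_univ, true_and, ha.2]
    tauto
  have h3 : ∑ b ∈ univ.filter (fun v => lev v = k + 1),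
      (Finset.bipartiteBelow (fun u v => G.Adj u v) (univ.filter fun v => lev v = k) b).card =
      ∑ b ∈ univ.filter (fun v => lev v = k + 1), s (k + 1) := by
    apply Finset.sum_congr rfl
    intro b hb
    rw [Finset.mem_filter] at hb
    have := h.up_card b (by omega)
    rw [hb.2] at this
    rw [← this]
    congr 1
    ext u
    simp only [Finset.mem_bipartiteBelow, Finset.mem_filter, Finset.mem_univ, true_and]
    constructor
    · rintro ⟨h4, h5⟩
      exact ⟨h5.symm, by omega⟩
    · rintro ⟨h4, h5⟩
      exact ⟨by omega, h4.symm⟩
  rw [h2, h3, Finset.sum_const, Finset.sum_const, smul_eq_mul, smul_eq_mul] at h1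
  rw [mul_comm, h1, mul_comm]

lemma IsHost.pow_count (h : IsHost G lev n s M B) {σ : ℕ} (hσ : ∀ i, 1 ≤ i → i ≤ n → s i ≤ σ)
    (k d : ℕ) (hkd : k + d ≤ n) :
    M ^ d * (univ.filter fun v => lev v = k).card ≤
      σ ^ d * (univ.filter fun v => lev v = k + d).card := by
  induction d with
  | zero => simp
  | succ d ih =>
    have ih' := ih (by omega)
    have h1 := h.level_count (k := k + d) (by omega)
    have h2 := hσ (k + d + 1) (by omega) (by omega)
    calc M ^ (d + 1) * (univ.filter fun v => lev v = k).card
        = M * (M ^ d * (univ.filter fun v => lev v = k).card) := by ring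
      _ ≤ M * (σ ^ d * (univ.filter fun v => lev v = k + d).card) := Nat.mul_le_mul_left _ ih'
      _ = σ ^ d * (M * (univ.filter fun v => lev v = k + d).card) := by ring
      _ = σ ^ d * (s (k + d + 1) * (univ.filter fun v => lev v = k + d + 1).card) := by rw [h1]
      _ ≤ σ ^ d * (σ * (univ.filter fun v => lev v = k + d + 1).card) :=
          Nat.mul_le_mul_left _ (Nat.mul_le_mul_right _ h2)
      _ = σ ^ (d + 1) * (univ.filter fun v => lev v = k + (d + 1)).card := by
          rw [pow_succ, mul_assoc]
          rfl

/-- the host is Ramsey -/
theorem IsHost.ramsey {N : ℕ} (h : IsHost G lev (N + 1) s M B) {W : Type} [Fintype W]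
    [DecidableEq W] {T : SimpleGraph W} (hT : T.IsTree) (hB : Fintype.card W ≤ B)
    {q : ℕ} (hq : 1 ≤ q) {r : ℕ → ℕ} (hr : ∀ j, 1 ≤ j → j ≤ N → 1 ≤ r j)
    (hr0 : r (N + 1) = 0)
    (hs : ∀ j, 1 ≤ j → j ≤ N → s j = q * r j) (hs1 : s (N + 1) = 1)
    (hemb : ∀ j, 1 ≤ j → j ≤ N + 1 → LevelEmb T (Function.update r j (r j + 1)) j)
    {σ : ℕ} (hσ : ∀ i, 1 ≤ i → i ≤ N + 1 → s i ≤ σ) (hσ1 : 1 ≤ σ)
    (hM : Fintype.card W * (1 + q * σ ^ (N + 1)) ^ (N + 1) < M)
    (c : Sym2 V → Fin q) :
    ∃ (f : W → V) (i : Fin q), Function.Injective f ∧
      ∀ a b, T.Adj a b → G.Adj (f a) (f b) ∧ c s(f a, f b) = i := by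
  classical
  by_contra hcon
  set NT := Fintype.card W with hNT
  have hNT1 : 1 ≤ NT := by
    obtain ⟨v0⟩ := hT.connected.nonempty
    exact Fintype.card_pos_iff.2 ⟨v0⟩
  set Q := q * σ ^ (N + 1) with hQ
  set up : Fin q → V → Finset V := fun i v =>
    univ.filter (fun u => (G.Adj v u ∧ c s(v, u) = i) ∧ lev u + 1 = lev v) with hup
  set down : Fin q → V → Finset V := fun i v =>
    univ.filter (fun u => (G.Adj v u ∧ c s(v, u) = i) ∧ lev u = lev v + 1) with hdown
  have hM1 : 1 ≤ M := by omega
  have hdownM : ∀ i v, (down i v).card ≤ M := by
    intro i v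
    rcases Nat.lt_or_ge (lev v) (N + 1) with hv | hv
    · rw [← h.down_card v hv]
      apply Finset.card_le_card
      intro u hu
      simp only [hdown, Finset.mem_filter] at hu ⊢
      exact ⟨hu.1, hu.2.1.1, hu.2.2⟩
    · have : down i v = ∅ := by
        apply Finset.eq_empty_of_forall_notMem
        intro u hu
        simp only [hdown, Finset.mem_filter] at hu
        have := h.lev_le u
        omega
      rw [this]
      simp
  have hupsum : ∀ v, 1 ≤ lev v → ∑ i, (up i v).card = s (lev v) := by
    intro v hv
    rw [← h.up_card v hv]
    rw [Finset.card_eq_sum_card_fiberwise (f := fun u => c s(v, u)) (t := univ)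
      (fun _ _ => by simp)]
    apply Finset.sum_congr rfl
    intro i _
    congr 1
    ext u
    simp only [hup, Finset.mem_filter, Finset.mem_univ, true_and]
    tauto
  set L : ℕ → Finset V := fun j => univ.filter (fun v => lev v = j) with hL
  set X : ℕ → Finset V := fun j => univ.filter (fun v => lev v = j ∧ ∃ i, r j + 1 ≤ (up i v).card)
    with hX
  have claim : ∀ j, j ≤ N + 1 → M * (X j).card + NT * (L j).card ≤ NT * (1 + Q) ^ j * (L j).card := by
    intro j
    induction j using Nat.strong_induction_on with
    | _ j ih =>
    intro hj
    rcases Nat.eq_zero_or_pos j with rfl | hjpos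
    · have : X 0 = ∅ := by
        apply Finset.eq_empty_of_forall_notMem
        intro v hv
        simp only [hX, Finset.mem_filter] at hv
        obtain ⟨-, hv0, i, hi⟩ := hv
        have h1 : 0 < (up i v).card := by omega
        obtain ⟨u, hu⟩ := Finset.card_pos.1 h1
        simp only [hup, Finset.mem_filter] at hu
        omega
      rw [this]
      simp
    · by_contra hlt
      push Not at hlt
      set Xi : Fin q → Finset V := fun i => univ.filter (fun v => lev v = j ∧
        r j + 1 ≤ (up i v).card) with hXi
      -- pigeonhole on colours
      have hpig : ∃ i, (X j).card ≤ q * (Xi i).card := by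
        have hXsub : X j ⊆ univ.biUnion Xi := by
          intro v hv
          simp only [hX, Finset.mem_filter] at hv
          obtain ⟨-, hv0, i, hi⟩ := hv
          rw [Finset.mem_biUnion]
          exact ⟨i, Finset.mem_univ _, by simp only [hXi, Finset.mem_filter]; exact ⟨Finset.mem_univ _, hv0, hi⟩⟩
        have h1 : (X j).card ≤ ∑ i, (Xi i).card :=
          (Finset.card_le_card hXsub).trans Finset.card_biUnion_le
        have : Nonempty (Fin q) := ⟨⟨0, by omega⟩⟩
        obtain ⟨i, _, hi⟩ := Finset.exists_max_image (univ : Finset (Fin q)) (fun i => (Xi i).card)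
          Finset.univ_nonempty
        refine ⟨i, h1.trans ?_⟩
        have := Finset.sum_le_card_nsmul (univ : Finset (Fin q)) (fun i => (Xi i).card) _ hi
        simpa using this
      obtain ⟨i, hi⟩ := hpig
      set Y : Finset V := univ.filter (fun v => (lev v = j ∧ v ∈ Xi i) ∨ (lev v < j ∧ v ∉ X (lev v)))
        with hY
      have hYj : (Y.filter fun v => lev v = j) = Xi i := by
        ext v
        simp only [hY, hXi, Finset.mem_filter, Finset.mem_univ, true_and]
        constructor
        · rintro ⟨h1 | h1, h2⟩
          · exact h1.2
          · omega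
        · intro h1
          exact ⟨Or.inl ⟨h1.1, h1⟩, h1.1⟩
      have hpot : ∑ v ∈ univ.filter (fun v => lev v < j),
          (NT * M ^ (j - lev v - 1) + (if v ∈ Y then 0 else M ^ (j - lev v)))
          < (Y.filter fun v => lev v = j).card := by
        rw [hYj]
        -- regroup by level
        have hsum : ∑ v ∈ univ.filter (fun v => lev v < j),
            (NT * M ^ (j - lev v - 1) + (if v ∈ Y then 0 else M ^ (j - lev v))) =
            ∑ k ∈ Finset.range j, (NT * M ^ (j - k - 1) * (L k).card + M ^ (j - k) * (X k).card) := by
          have e : univ.filter (fun v => lev v < j) = (Finset.range j).biUnion L := by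
            ext v
            simp [hL]
          rw [e, Finset.sum_biUnion]
          · apply Finset.sum_congr rfl
            intro k hk
            rw [Finset.mem_range] at hk
            rw [Finset.sum_add_distrib]
            congr 1
            · rw [Finset.sum_congr rfl (g := fun _ => NT * M ^ (j - k - 1))]
              · rw [Finset.sum_const, smul_eq_mul, mul_comm]
              · intro v hv
                simp only [hL, Finset.mem_filter] at hv
                rw [hv.2]
            · rw [Finset.sum_congr rfl (g := fun v => if v ∈ X k then M ^ (j - k) else 0)]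
              · rw [← Finset.sum_filter, Finset.sum_const, smul_eq_mul, mul_comm]
                congr 2
                ext v
                simp only [hL, hX, Finset.mem_filter, Finset.mem_univ, true_and]
                tauto
              · intro v hv
                simp only [hL, Finset.mem_filter] at hv
                have hvY : v ∈ Y ↔ v ∉ X k := by
                  simp only [hY, Finset.mem_filter, Finset.mem_univ, true_and]
                  rw [hv.2]
                  constructor
                  · rintro (h1 | h1)
                    · omega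
                    · exact h1.2
                  · intro h1
                    exact Or.inr ⟨hk, h1⟩
                by_cases hvX : v ∈ X k
                · rw [if_neg (by rw [hvY]; exact fun h => h hvX), if_pos hvX, hv.2]
                · rw [if_pos (hvY.2 hvX), if_neg hvX]
          · intro k _ k' _ hkk
            rw [Function.onFun, Finset.disjoint_left]
            intro v hv hv'
            simp only [hL, Finset.mem_filter] at hv hv'
            exact hkk (hv.2.symm.trans hv'.2)
        rw [hsum]
        set Pot := ∑ k ∈ Finset.range j, (NT * M ^ (j - k - 1) * (L k).card + M ^ (j - k) * (X k).card)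
          with hPot
        -- M * Pot is small
        have hMP : q * (M * Pot) ≤ NT * ((1 + Q) ^ j - 1) * (L j).card := by
          have h1 : M * Pot ≤ ∑ k ∈ Finset.range j, NT * (1 + Q) ^ k * σ ^ (N + 1) * (L j).card := by
            rw [hPot, Finset.mul_sum]
            apply Finset.sum_le_sum
            intro k hk
            rw [Finset.mem_range] at hk
            have ihk := ih k hk (by omega)
            have hpc := h.pow_count hσ k (j - k) (by omega)
            have e : k + (j - k) = j := by omega
            rw [e] at hpc
            have hσp : σ ^ (j - k) ≤ σ ^ (N + 1) := Nat.pow_le_pow_right hσ1 (by omega)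
            have e2 : M * (NT * M ^ (j - k - 1) * (L k).card) = M ^ (j - k) * (NT * (L k).card) := by
              have : M ^ (j - k) = M * M ^ (j - k - 1) := by
                rw [← pow_succ']
                congr 1
                omega
              rw [this]
              ring
            calc M * (NT * M ^ (j - k - 1) * (L k).card + M ^ (j - k) * (X k).card)
                = M ^ (j - k) * (M * (X k).card + NT * (L k).card) := by
                  rw [mul_add, e2]; ring
              _ ≤ M ^ (j - k) * (NT * (1 + Q) ^ k * (L k).card) := Nat.mul_le_mul_left _ ihk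
              _ = NT * (1 + Q) ^ k * (M ^ (j - k) * (L k).card) := by ring
              _ ≤ NT * (1 + Q) ^ k * (σ ^ (j - k) * (L j).card) := Nat.mul_le_mul_left _ hpc
              _ ≤ NT * (1 + Q) ^ k * (σ ^ (N + 1) * (L j).card) :=
                  Nat.mul_le_mul_left _ (Nat.mul_le_mul_right _ hσp)
              _ = NT * (1 + Q) ^ k * σ ^ (N + 1) * (L j).card := by ring
          have h2 : ∑ k ∈ Finset.range j, (1 + Q) ^ k * Q = (1 + Q) ^ j - 1 := by
            have := Nat.geomSum_eq (m := 1 + Q)
            clear * -
            induction j with
            | zero => simp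
            | succ j ih =>
              rw [Finset.sum_range_succ, ih, pow_succ]
              have : 1 ≤ (1 + Q) ^ j := Nat.one_le_pow _ _ (by omega)
              rw [mul_add, mul_one]
              omega
          calc q * (M * Pot) ≤ q * ∑ k ∈ Finset.range j, NT * (1 + Q) ^ k * σ ^ (N + 1) * (L j).card :=
                Nat.mul_le_mul_left _ h1
            _ = NT * (∑ k ∈ Finset.range j, (1 + Q) ^ k * Q) * (L j).card := by
                rw [Finset.mul_sum, Finset.mul_sum, Finset.sum_mul]
                apply Finset.sum_congr rfl
                intro k _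
                rw [hQ]
                ring
            _ = NT * ((1 + Q) ^ j - 1) * (L j).card := by rw [h2]
        have h3 : NT * ((1 + Q) ^ j - 1) * (L j).card < M * (X j).card := by
          have h4 : NT * (1 + Q) ^ j * (L j).card =
              NT * ((1 + Q) ^ j - 1) * (L j).card + NT * (L j).card := by
            have : 1 ≤ (1 + Q) ^ j := Nat.one_le_pow _ _ (by omega)
            obtain ⟨z, hz⟩ := Nat.exists_eq_add_of_le this
            rw [hz]
            simp only [Nat.add_sub_cancel_left]
            ring
          omega
        have h5 : q * (M * Pot) < q * (M * (Xi i).card) := by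
          calc q * (M * Pot) ≤ _ := hMP
            _ < M * (X j).card := h3
            _ ≤ M * (q * (Xi i).card) := Nat.mul_le_mul_left _ hi
            _ = q * (M * (Xi i).card) := by ring
        exact Nat.lt_of_mul_lt_mul_left (Nat.lt_of_mul_lt_mul_left h5)
      obtain ⟨A, hA1, hA2, hA3, hA4⟩ := exists_closed lev (up i) (down i)
        (by
          intro u v
          simp only [hup, hdown, Finset.mem_filter, Finset.mem_univ, true_and]
          rw [G.adj_comm, Sym2.eq_swap]
          constructor
          · rintro ⟨h1, h2⟩; exact ⟨h1, h2.symm⟩
          · rintro ⟨h1, h2⟩; exact ⟨h1, h2.symm⟩)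
        (by
          intro u v hu
          simp only [hup, Finset.mem_filter] at hu
          exact hu.2.2) M NT (hdownM i) hNT1 hM1 j Y hpot
      apply hcon
      obtain ⟨f, hf1, hf2⟩ := exists_mono_copy hT h.even_free.sparse hB lev
        (fun u v => G.Adj u v ∧ c s(u, v) = i) (fun u v huv => huv.1)
        (fun u v huv => ⟨huv.1.symm, by rw [Sym2.eq_swap]; exact huv.2⟩) (up i) (down i)
        (by intro u v; simp only [hup, Finset.mem_filter, Finset.mem_univ, true_and])
        (by intro u v; simp only [hdown, Finset.mem_filter, Finset.mem_univ, true_and])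
        A j (Function.update r j (r j + 1)) hA2
        (by
          intro v hv hv1
          obtain ⟨hvY, hvj⟩ := hA1 v hv
          simp only [hY, Finset.mem_filter, Finset.mem_univ, true_and] at hvY
          rcases hvY with ⟨h1, h2⟩ | ⟨h1, h2⟩
          · simp only [hXi, Finset.mem_filter] at h2
            rw [h1, Function.update_self]
            exact h2.2.2
          · rw [Function.update_of_ne (by omega)]
            have h3 : ∀ i', (up i' v).card ≤ r (lev v) := by
              intro i'
              by_contra h4
              push Not at h4
              apply h2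
              simp only [hX, Finset.mem_filter, Finset.mem_univ, true_and]
              exact ⟨i', h4⟩
            have h4 := hupsum v hv1
            rw [hs _ hv1 (by omega)] at h4
            by_contra h5
            push Not at h5
            have h6 : ∑ i', (up i' v).card < ∑ _i' : Fin q, r (lev v) :=
              Finset.sum_lt_sum (fun i' _ => h3 i') ⟨i, Finset.mem_univ _, h5⟩
            rw [Finset.sum_const, Finset.card_univ, Fintype.card_fin, smul_eq_mul, h4] at h6
            exact lt_irrefl _ h6)
        (by
          intro k hk1 hk2
          rcases eq_or_ne k j with rfl | hkj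
          · rw [Function.update_self]; omega
          · rw [Function.update_of_ne hkj]
            exact hr k hk1 (by omega))
        hA3 hA4 (hemb j hjpos hj)
      exact ⟨f, i, hf1, hf2⟩
  have hfin := claim (N + 1) le_rfl
  have hXL : X (N + 1) = L (N + 1) := by
    ext v
    simp only [hX, hL, Finset.mem_filter, Finset.mem_univ, true_and]
    constructor
    · intro h1; exact h1.1
    · intro h1
      refine ⟨h1, ?_⟩
      have h2 := hupsum v (by omega)
      rw [h1, hs1] at h2
      by_contra h3
      push Not at h3
      have : ∑ i, (up i v).card = 0 := by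
        apply Finset.sum_eq_zero
        intro i _
        have := h3 i
        rw [hr0] at this
        omega
      omega
  rw [hXL] at hfin
  have hLpos : 0 < (L (N + 1)).card := by
    have h1 := h.pow_count hσ 0 (N + 1) (by omega)
    rw [Nat.zero_add] at h1
    obtain ⟨v, hv⟩ := h.top
    have h2 : 0 < (L 0).card := Finset.card_pos.2 ⟨v, by simp [hL, hv]⟩
    have h3 : 0 < M ^ (N + 1) * (L 0).card := Nat.mul_pos (Nat.pow_pos (by omega)) h2
    have h4 : 0 < σ ^ (N + 1) * (L (N + 1)).card := lt_of_lt_of_le h3 h1
    exact Nat.pos_of_mul_pos_left h4
  have h5 : M * (L (N + 1)).card ≤ NT * (1 + Q) ^ (N + 1) * (L (N + 1)).card := by omega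
  have h6 := Nat.le_of_mul_le_mul_right h5 hLpos
  omega

end

end Pool.Agent.W_MP_34e65c_co
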