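import Mathlib
import Pool.Agent.W_MP_34e65c_co.Defs
import Pool.Agent.W_MP_34e65c_co.RamseyHost
import Pool.Agent.W_MP_34e65c_co.Free

namespace Pool.Agent.W_MP_34e65c_co

open Finset

section
variable {W V V' : Type} {T : SimpleGraph W} {G : SimpleGraph V} {G' : SimpleGraph V'} {q : ℕ}

lemma isRamsey_iff (hq : 1 ≤ q) : IsRamsey q T G ↔ ∀ c : Sym2 V → Fin q,
    ∃ (f : W → V) (i : Fin q), Function.Injective f ∧
      ∀ a b, T.Adj a b → G.Adj (f a) (f b) ∧ c s(f a, f b) = i := by
  classical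
  constructor
  · intro h c
    obtain ⟨f, i, hf⟩ := h (fun e => c e.1)
    refine ⟨f, i, f.injective, fun a b hab => ?_⟩
    obtain ⟨h1, h2⟩ := hf a b hab
    exact ⟨h1, h2⟩
  · intro h c
    obtain ⟨f, i, hf, hfi⟩ := h (fun e => if he : e ∈ G.edgeSet then c ⟨e, he⟩ else ⟨0, by omega⟩)
    refine ⟨⟨f, hf⟩, i, fun a b hab => ?_⟩
    obtain ⟨h1, h2⟩ := hfi a b hab
    refine ⟨h1, ?_⟩
    have h3 : s(f a, f b) ∈ G.edgeSet := h1
    simp only [dif_pos h3] at h2
    exact h2

lemma IsRamsey.of_hom (hq : 1 ≤ q) (h : IsRamsey q T G) (φ : V → V')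
    (hφ : Function.Injective φ) (hadj : ∀ x y, G.Adj x y → G'.Adj (φ x) (φ y)) :
    IsRamsey q T G' := by
  rw [isRamsey_iff hq] at h ⊢
  intro c
  obtain ⟨f, i, hf, hfi⟩ := h (fun e => c (Sym2.map φ e))
  refine ⟨φ ∘ f, i, hφ.comp hf, fun a b hab => ?_⟩
  obtain ⟨h1, h2⟩ := hfi a b hab
  exact ⟨hadj _ _ h1, by simpa using h2⟩

lemma IsRamsey.restrict (hq : 1 ≤ q) (hTnb : ∀ a, ∃ b, T.Adj a b) (h : IsRamsey q T G)
    (φ : V' → V) (hφ : Function.Injective φ) (hadj : ∀ x y, G.Adj (φ x) (φ y) → G'.Adj x y)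
    (hrange : ∀ v w, G.Adj v w → ∃ x, φ x = v) : IsRamsey q T G' := by
  classical
  rw [isRamsey_iff hq] at h ⊢
  intro c
  obtain ⟨f, i, hf, hfi⟩ := h (fun e => Function.extend (Sym2.map φ) c (fun _ => ⟨0, by omega⟩) e)
  have hex : ∀ a, ∃ x, φ x = f a := by
    intro a
    obtain ⟨b, hab⟩ := hTnb a
    exact hrange _ _ (hfi a b hab).1
  choose g hg using hex
  refine ⟨g, i, ?_, fun a b hab => ?_⟩
  · intro a b hab
    apply hf
    rw [← hg, ← hg, hab]
  · obtain ⟨h1, h2⟩ := hfi a b hab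
    rw [← hg a, ← hg b] at h1 h2
    refine ⟨hadj _ _ h1, ?_⟩
    have h3 : s(φ (g a), φ (g b)) = Sym2.map φ s(g a, g b) := by simp
    rw [h3, (Sym2.map.injective hφ).extend_apply] at h2
    exact h2

lemma IsMinRamsey.not_isolated (hq : 1 ≤ q) (hTnb : ∀ a, ∃ b, T.Adj a b)
    (h : IsMinRamsey q T G) (v : V) : ∃ w, G.Adj v w := by
  by_contra hcon
  push Not at hcon
  have h1 := h.2 ((⊤ : G.Subgraph).deleteVerts {v}) (by
    intro heq
    have : v ∈ ((⊤ : G.Subgraph).deleteVerts {v}).verts := by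
      rw [heq]
      simp
    simp at this)
  apply h1
  refine IsRamsey.restrict hq hTnb h.1 Subtype.val Subtype.val_injective ?_ ?_
  · rintro ⟨x, hx⟩ ⟨y, hy⟩ hxy
    simp only [SimpleGraph.Subgraph.coe_adj, SimpleGraph.Subgraph.deleteVerts_adj,
      SimpleGraph.Subgraph.verts_top, Set.mem_univ, true_and, SimpleGraph.Subgraph.top_adj,
      Set.mem_singleton_iff]
    refine ⟨?_, ?_, hxy⟩
    · rintro rfl
      exact hcon _ hxy
    · rintro rfl
      exact hcon _ hxy.symm
  · intro x y hxy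
    refine ⟨⟨x, ?_⟩, rfl⟩
    simp only [SimpleGraph.Subgraph.deleteVerts_verts, SimpleGraph.Subgraph.verts_top,
      Set.mem_sdiff, Set.mem_univ, Set.mem_singleton_iff, true_and]
    rintro rfl
    exact hcon _ hxy

end

lemma not_star {W : Type} [Fintype W] {T : SimpleGraph W} (hT : T.IsTree) (hns : ¬ IsStar T) :
    ∀ v, ∃ w, w ≠ v ∧ ¬ T.Adj v w := by
  classical
  by_contra hcon
  push Not at hcon
  obtain ⟨v, hv⟩ := hcon
  apply hns
  have hno : ∀ w w', w ≠ v → w' ≠ v → ¬ T.Adj w w' := by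
    intro w w' hw hw' hadj
    have h1 := SimpleGraph.dist_eq_one_iff_adj.2 (hv w hw)
    have h2 := SimpleGraph.dist_eq_one_iff_adj.2 (hv w' hw')
    rcases hT.dist_eq_dist_add_one_of_adj v hadj with h | h <;> omega
  refine ⟨Fintype.card {w : W // ¬ w = v}, ⟨?_⟩⟩
  have e1 : {w : W // w = v} ≃ Fin 1 :=
    Fintype.equivFinOfCardEq (Fintype.card_subtype_eq v)
  have e2 : {w : W // ¬ w = v} ≃ Fin (Fintype.card {w : W // ¬ w = v}) := Fintype.equivFin _
  refine ⟨(Equiv.sumCompl (fun w => w = v)).symm.trans (Equiv.sumCongr e1 e2), ?_⟩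
  intro a b
  simp only [completeBipartiteGraph_adj, Equiv.trans_apply]
  by_cases ha : a = v
  · by_cases hb : b = v
    · rw [Equiv.sumCompl_symm_apply_of_pos (p := fun w => w = v) ha, Equiv.sumCompl_symm_apply_of_pos (p := fun w => w = v) hb]
      simp only [Equiv.sumCongr_apply, Sum.map_inl, Sum.isLeft_inl, Sum.isRight_inl]
      simp [ha, hb]
    · rw [Equiv.sumCompl_symm_apply_of_pos (p := fun w => w = v) ha, Equiv.sumCompl_symm_apply_of_neg (p := fun w => w = v) hb]
      simp only [Equiv.sumCongr_apply, Sum.map_inl, Sum.map_inr, Sum.isLeft_inl, Sum.isRight_inl,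
        Sum.isLeft_inr, Sum.isRight_inr]
      subst ha
      simp [hv b hb]
  · by_cases hb : b = v
    · rw [Equiv.sumCompl_symm_apply_of_neg (p := fun w => w = v) ha, Equiv.sumCompl_symm_apply_of_pos (p := fun w => w = v) hb]
      simp only [Equiv.sumCongr_apply, Sum.map_inl, Sum.map_inr, Sum.isLeft_inl, Sum.isRight_inl,
        Sum.isLeft_inr, Sum.isRight_inr]
      subst hb
      simp [(hv a ha).symm]
    · rw [Equiv.sumCompl_symm_apply_of_neg (p := fun w => w = v) ha, Equiv.sumCompl_symm_apply_of_neg (p := fun w => w = v) hb]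
      simp only [Equiv.sumCongr_apply, Sum.map_inr, Sum.isLeft_inr, Sum.isRight_inr]
      simp [hno a b ha hb]

open scoped Classical in
/-- many leaves -/
theorem exists_min_many_leaves {W : Type} [Fintype W] {T : SimpleGraph W} (hT : T.IsTree)
    (hns : ¬ IsStar T) {q : ℕ} (hq : 2 ≤ q) (k : ℕ) :
    ∃ (n : ℕ) (G : SimpleGraph (Fin n)), IsMinRamsey q T G ∧
      k ≤ (univ.filter fun v => G.degree v = 1).card := by
  have hns' := not_star hT hns
  have hTnb : ∀ a, ∃ b, T.Adj a b := by
    intro a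
    obtain ⟨w, hw, -⟩ := hns' a
    obtain ⟨pw⟩ := hT.connected a w
    cases pw with
    | nil => exact absurd rfl hw
    | cons h _ => exact ⟨_, h⟩
  obtain ⟨N, r, hN, hr, hr0, hnot, hemb⟩ := exists_seq hT hns'
  set s : ℕ → ℕ := fun j => if j ≤ N then q * r j else 1 with hs
  have hs' : ∀ j, 1 ≤ j → j ≤ N → s j = q * r j := fun j _ h2 => by rw [hs]; exact if_pos h2
  have hs1 : s (N + 1) = 1 := by rw [hs]; exact if_neg (by omega)
  set σ : ℕ := ∑ j ∈ Finset.range (N + 2), s j with hσdef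
  have hσ : ∀ i, 1 ≤ i → i ≤ N + 1 → s i ≤ σ := by
    intro i _ hi
    exact Finset.single_le_sum (f := s) (fun _ _ => Nat.zero_le _)
      (Finset.mem_range.2 (by omega))
  have hσ1 : 1 ≤ σ := by
    have := hσ (N + 1) (by omega) le_rfl
    omega
  have hspos : ∀ j, 1 ≤ j → j ≤ N + 1 → 1 ≤ s j := by
    intro j h1 h2
    rcases Nat.lt_or_ge j (N + 1) with h3 | h3
    · rw [hs' j h1 (by omega)]
      exact Nat.mul_pos (by omega) (hr j h1 (by omega))
    · have : j = N + 1 := by omega
      rw [this, hs1]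
  set M := Fintype.card W * (1 + q * σ ^ (N + 1)) ^ (N + 1) + 1 with hM
  set B := Fintype.card W + k * (N + 1) * σ ^ N * (1 + σ + M) with hB
  obtain ⟨V, iV1, iV2, G, lev, hG⟩ := exists_host (N + 1) s M hspos B
  have hGR : IsRamsey q T G := by
    rw [isRamsey_iff (by omega)]
    intro c
    exact hG.ramsey hT (by omega) (by omega) hr hr0 hs' hs1 hemb hσ hσ1 (by omega) c
  obtain ⟨G1, hG1G, hG1⟩ := exists_minimal_le_of_wellFoundedLT (fun H : SimpleGraph V => IsRamsey q T H) G hGR
  -- counting leaves of G1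
  have hdeg1 : ∀ z, lev z = N + 1 → (∃ w, G1.Adj z w) → G1.degree z = 1 := by
    intro z hz hw
    have h1 := hG.up_card z (by omega)
    rw [hz, hs1, Finset.card_eq_one] at h1
    obtain ⟨u, hu⟩ := h1
    have huniq : ∀ w, G1.Adj z w → w = u := by
      intro w hzw
      have h2 := hG1G hzw
      have h3 := hG.lev_le w
      have h4 : w ∈ (univ.filter fun u => G.Adj z u ∧ lev u + 1 = N + 1) := by
        rw [Finset.mem_filter]
        refine ⟨Finset.mem_univ _, h2, ?_⟩
        rcases hG.adj_lev _ _ h2 with h | h <;> omega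
      rw [hu, Finset.mem_singleton] at h4
      exact h4
    obtain ⟨w, hw⟩ := hw
    rw [← SimpleGraph.card_neighborFinset_eq_degree, Finset.card_eq_one]
    refine ⟨u, ?_⟩
    ext x
    rw [SimpleGraph.mem_neighborFinset, Finset.mem_singleton]
    constructor
    · exact huniq x
    · rintro rfl
      rw [← huniq w hw]
      exact hw
  set Lf : Finset V := univ.filter (fun z => lev z = N + 1 ∧ ∃ w, G1.Adj z w) with hLf
  have hLfk : k ≤ Lf.card := by
    by_contra hlt
    push Not at hlt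
    set W0 : Finset V := univ.filter (fun w => lev w = N ∧ ∃ z, lev z = N + 1 ∧ G1.Adj z w)
      with hW0
    have hW0card : W0.card ≤ Lf.card := by
      have hsub : W0 ⊆ Lf.image (fun z => if h : ∃ w, G1.Adj z w then h.choose else z) := by
        intro w hw
        rw [hW0, Finset.mem_filter] at hw
        obtain ⟨-, hlw, z, hz, hzw⟩ := hw
        rw [Finset.mem_image]
        refine ⟨z, ?_, ?_⟩
        · rw [hLf, Finset.mem_filter]
          exact ⟨Finset.mem_univ _, hz, w, hzw⟩
        · have hex : ∃ w, G1.Adj z w := ⟨w, hzw⟩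
          rw [dif_pos hex]
          have h1 := hdeg1 z hz hex
          rw [← SimpleGraph.card_neighborFinset_eq_degree, Finset.card_eq_one] at h1
          obtain ⟨u, hu⟩ := h1
          have m1 : hex.choose ∈ G1.neighborFinset z := by
            rw [SimpleGraph.mem_neighborFinset]
            exact hex.choose_spec
          have m2 : w ∈ G1.neighborFinset z := by
            rw [SimpleGraph.mem_neighborFinset]
            exact hzw
          rw [hu, Finset.mem_singleton] at m1 m2
          rw [m1, m2]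
      exact (Finset.card_le_card hsub).trans Finset.card_image_le
    have hBle : W0.card * (N + 1) * σ ^ N * (1 + σ + M) ≤ B := by
      have h1 : W0.card ≤ k := by omega
      have h2 : W0.card * (N + 1) * σ ^ N * (1 + σ + M) ≤ k * (N + 1) * σ ^ N * (1 + σ + M) :=
        Nat.mul_le_mul_right _ (Nat.mul_le_mul_right _ (Nat.mul_le_mul_right _ h1))
      omega
    obtain ⟨c, hc⟩ := hG.exists_free hT hns' hq hr hs' hs1 hnot hσ hσ1 W0
      (fun w hw => by rw [hW0, Finset.mem_filter] at hw; exact hw.2.1) hBle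
    have h1 := (isRamsey_iff (by omega)).1 hG1.prop c
    obtain ⟨f, i, hf, hfi⟩ := h1
    apply hc f i hf
    intro a b hab
    obtain ⟨h2, h3⟩ := hfi a b hab
    refine ⟨hG1G h2, ?_, h3⟩
    intro h4
    rw [hW0, Finset.mem_filter]
    refine ⟨Finset.mem_univ _, ?_, f a, h4, h2⟩
    have h5 := hG.lev_le (f b)
    rcases hG.adj_lev _ _ (hG1G h2) with h | h <;> omega
  -- remove isolated vertices
  set S : Set V := {v | ∃ w, G1.Adj v w} with hS
  set G2 : SimpleGraph S := G1.comap Subtype.val with hG2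
  have hcard : Fintype.card S = Fintype.card S := rfl
  set G3 := G2.overFin hcard with hG3
  set φ : G2 ≃g G3 := G2.overFinIso hcard with hφ
  set ψ : Fin (Fintype.card S) → V := fun x => (φ.symm x).1 with hψ
  have hψinj : Function.Injective ψ := by
    intro x y hxy
    exact φ.symm.injective (Subtype.ext hxy)
  have hψadj : ∀ x y, G3.Adj x y ↔ G1.Adj (ψ x) (ψ y) := by
    intro x y
    rw [← φ.symm.map_adj_iff]
    rfl
  have hψrange : ∀ v w, G1.Adj v w → ∃ x, ψ x = v := by
    intro v w hvw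
    refine ⟨φ ⟨v, w, hvw⟩, ?_⟩
    simp [hψ]
  refine ⟨Fintype.card S, G3, ⟨?_, ?_⟩, ?_⟩
  · exact IsRamsey.restrict (by omega) hTnb hG1.prop ψ hψinj (fun x y h => (hψadj x y).2 h) hψrange
  · intro G' hG' hR
    apply hG'
    -- push G' to V
    set H : SimpleGraph V := G'.spanningCoe.map (⟨ψ, hψinj⟩ : Fin (Fintype.card S) ↪ V) with hH
    have hHle : H ≤ G1 := by
      rw [hH, SimpleGraph.map_le_iff_le_comap]
      intro x y hxy
      rw [SimpleGraph.comap_adj]
      have h1 : G'.Adj x y := hxy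
      exact (hψadj x y).1 h1.adj_sub
    have hHR : IsRamsey q T H := by
      refine IsRamsey.of_hom (by omega) hR (fun x => ψ x.1) ?_ ?_
      · intro x y hxy
        exact Subtype.ext (hψinj hxy)
      · intro x y hxy
        rw [hH, SimpleGraph.map_adj]
        exact ⟨x.1, y.1, hxy, rfl, rfl⟩
    have hle := hG1.le_of_le (y := H) hHR hHle
    have hadj : ∀ x y, G3.Adj x y → G'.Adj x y := by
      intro x y hxy
      have h1 := hle ((hψadj x y).1 hxy)
      rw [hH, SimpleGraph.map_adj] at h1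
      obtain ⟨x', y', h2, h3, h4⟩ := h1
      have e1 : x' = x := hψinj h3
      have e2 : y' = y := hψinj h4
      rw [e1, e2] at h2
      exact h2
    have hverts : ∀ x, x ∈ G'.verts := by
      intro x
      obtain ⟨w, hw⟩ : ∃ w, G1.Adj (ψ x) w := (φ.symm x).2
      obtain ⟨y, hy⟩ := hψrange w (ψ x) hw.symm
      have h1 : G3.Adj x y := (hψadj x y).2 (by rw [hy]; exact hw)
      exact (hadj x y h1).fst_mem
    apply SimpleGraph.Subgraph.ext
    · ext x
      simp [hverts x]
    · funext x y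
      rw [eq_iff_iff, SimpleGraph.Subgraph.top_adj]
      exact ⟨fun h => h.adj_sub, hadj x y⟩
  · refine hLfk.trans ?_
    have hdegeq : ∀ x, G3.degree x = G1.degree (ψ x) := by
      intro x
      rw [← SimpleGraph.card_neighborFinset_eq_degree, ← SimpleGraph.card_neighborFinset_eq_degree]
      apply Finset.card_bij (fun y _ => ψ y)
      · intro y hy
        rw [SimpleGraph.mem_neighborFinset] at hy ⊢
        exact (hψadj x y).1 hy
      · intro y _ y' _ h
        exact hψinj h
      · intro w hw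
        rw [SimpleGraph.mem_neighborFinset] at hw
        obtain ⟨y, hy⟩ := hψrange w _ hw.symm
        refine ⟨y, ?_, hy⟩
        rw [SimpleGraph.mem_neighborFinset]
        exact (hψadj x y).2 (by rw [hy]; exact hw)
    have hsub : Lf ⊆ (univ.filter fun x => G3.degree x = 1).image ψ := by
      intro z hz
      rw [hLf, Finset.mem_filter] at hz
      obtain ⟨-, hz1, w, hw⟩ := hz
      obtain ⟨x, hx⟩ := hψrange z w hw
      rw [Finset.mem_image]
      refine ⟨x, ?_, hx⟩
      rw [Finset.mem_filter]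
      refine ⟨Finset.mem_univ _, ?_⟩
      rw [hdegeq, hx]
      exact hdeg1 z hz1 ⟨w, hw⟩
    exact (Finset.card_le_card hsub).trans Finset.card_image_le

lemma sMin_eq_one {W : Type} [Fintype W] {T : SimpleGraph W} (hT : T.IsTree)
    (hns : ¬ IsStar T) {q : ℕ} (hq : 2 ≤ q) : sMin q T = 1 := by
  classical
  have hns' := not_star hT hns
  have hTnb : ∀ a, ∃ b, T.Adj a b := by
    intro a
    obtain ⟨w, hw, -⟩ := hns' a
    obtain ⟨pw⟩ := hT.connected a w
    cases pw with
    | nil => exact absurd rfl hw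
    | cons h _ => exact ⟨_, h⟩
  have hlow : ∀ d, (∃ (n : ℕ) (G : SimpleGraph (Fin n)), IsMinRamsey q T G ∧ G.minDegree = d) →
      1 ≤ d := by
    rintro d ⟨n, G, hG, rfl⟩
    obtain ⟨v0⟩ := hT.connected.nonempty
    obtain ⟨f, -⟩ := hG.1 (fun _ => ⟨0, by omega⟩)
    have : Nonempty (Fin n) := ⟨f v0⟩
    apply SimpleGraph.le_minDegree_of_forall_le_degree
    intro v
    obtain ⟨w, hw⟩ := hG.not_isolated (by omega) hTnb v
    rw [Nat.one_le_iff_ne_zero, ← Nat.pos_iff_ne_zero, SimpleGraph.degree_pos_iff_exists_adj]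
    exact ⟨w, hw⟩
  obtain ⟨n, G, hG, hk⟩ := exists_min_many_leaves hT hns hq 1
  have hmem : G.minDegree = 1 := by
    apply le_antisymm
    · obtain ⟨v, hv⟩ := Finset.card_pos.1 (lt_of_lt_of_le Nat.zero_lt_one hk)
      rw [Finset.mem_filter] at hv
      rw [← hv.2]
      convert SimpleGraph.minDegree_le_degree G v
    · have := hlow _ ⟨n, G, hG, rfl⟩
      convert this
  apply le_antisymm
  · apply Nat.sInf_le
    exact ⟨n, G, hG, by convert hmem⟩
  · unfold sMin
    apply le_csInf
    · exact ⟨1, n, G, hG, by convert hmem⟩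
    · intro d hd
      apply hlow
      obtain ⟨n', G', hG', hd'⟩ := hd
      exact ⟨n', G', hG', by convert hd'⟩

theorem main {W : Type} [Fintype W] (T : SimpleGraph W) (hT : T.IsTree)
    (hns : ¬ IsStar T) (q : ℕ) (hq : 2 ≤ q) : IsAbundant q T := by
  intro k
  obtain ⟨n, G, hG, hk⟩ := exists_min_many_leaves hT hns hq k
  refine ⟨n, G, hG, ?_⟩
  rw [sMin_eq_one hT hns hq]
  exact hk

end Pool.Agent.W_MP_34e65c_co
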